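import Pool.Agent.H13.PRK.S8

/-!
# PRK, row FIPI: from the law for one polynomial to the law for a family (one extra prime)
-/

set_option autoImplicit false

namespace Pool.PRK

open Polynomial Matrix Pool.HYP Pool.TOW Pool.AVS Pool.T1 IsDedekindDomain

namespace Fipi13

theorem mem_Sl' {R : Type} [CommRing R] [IsDomain R] {T S : Finset (HeightOneSpectrum R)} :
    S ∈ Sl T ↔ S ⊆ T ∧ (S.card = T.card / 2 ∨ S.card = T.card / 2 + 1) := by
  unfold Sl
  rw [Finset.mem_filter, Finset.mem_powerset]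

variable {R : Type} [CommRing R] [IsDedekindDomain R] {K : Type} [Field K] [Algebra R K]
  [IsFractionRing R K] {O : ValuationSubring K} {π : K} {g : ℕ} {D : Dat R O} {h : ℕ}

open Classical in
/-- The pairs of an element of `A` and a set `S`. -/
def Prs (D : Dat R O) (P : HeightOneSpectrum R) (A : Set R[X]) :
    Set (R[X] × Finset (HeightOneSpectrum R)) :=
  {z | z.1 ∈ A ∧ z.2 ∈ Sl (D.T.erase P)}

open Classical in
/-- The twist. -/
noncomputable def tws (K : Type) [Field K] [Algebra R K] (P : HeightOneSpectrum R)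
    (dS : Finset (HeightOneSpectrum R) → R)
    (z : R[X] × Finset (HeightOneSpectrum R)) : K[X] :=
  fk K (z.1.scaleRoots (dS (insert P z.2)))

open Classical in
theorem inj (hZ : ZINJStmt) (hg : 1 ≤ g) (hD : D.Ok g) {P : HeightOneSpectrum R} (hP : P ∈ D.T)
    {dS : Finset (HeightOneSpectrum R) → R} (hdS : Tws D dS) {A : Set R[X]}
    (hA : A ⊆ Fam π g D h) : Set.InjOn (tws K P dS) (Prs D P A) := by
  rintro ⟨f, S⟩ ⟨hf, hS⟩ ⟨f', S'⟩ ⟨hf', hS'⟩ he
  have h1 : ∀ S ∈ Sl (D.T.erase P), insert P S ⊆ D.T ∧ P ∉ S := fun S hS =>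
    ⟨Finset.insert_subset hP ((mem_Sl'.1 hS).1.trans (Finset.erase_subset _ _)), fun h2 =>
      (Finset.mem_erase.1 ((mem_Sl'.1 hS).1 h2)).1 rfl⟩
  obtain ⟨h2, h3⟩ := (hZ R K O π g D h hg hD dS hdS).1 (insert P S) (h1 S hS).1 (insert P S')
    (h1 S' hS').1 f (hA hf) f' (hA hf') he
  have h4 : S = S' := by
    have h5 := congrArg (fun T => Finset.erase T P) h2
    rwa [Finset.erase_insert (h1 S hS).2, Finset.erase_insert (h1 S' hS').2] at h5
  rw [h3, h4]

open Classical in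
theorem zi_image (P : HeightOneSpectrum R) (dS : Finset (HeightOneSpectrum R) → R)
    (A : Set R[X]) : ZI K D P dS A = tws K P dS '' Prs D P A := by
  ext q
  constructor
  · rintro ⟨f, hf, S, hS, rfl⟩
    exact ⟨(f, S), ⟨hf, hS⟩, rfl⟩
  · rintro ⟨⟨f, S⟩, ⟨hf, hS⟩, rfl⟩
    exact ⟨f, hf, S, hS, rfl⟩

open Classical in
theorem prs_fin {P : HeightOneSpectrum R} {A : Set R[X]} (hA : A.Finite) :
    (Prs D P A).Finite := by
  refine (hA.prod (Finset.finite_toSet (Sl (D.T.erase P)))).subset ?_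
  rintro ⟨f, S⟩ ⟨hf, hS⟩
  exact ⟨hf, hS⟩

open Classical in
/-- The size of the family. -/
theorem zi_card (hZ : ZINJStmt) (hg : 1 ≤ g) (hD : D.Ok g) {P : HeightOneSpectrum R}
    (hP : P ∈ D.T) {dS : Finset (HeightOneSpectrum R) → R} (hdS : Tws D dS) {A : Set R[X]}
    (hA : A ⊆ Fam π g D h) (hAf : A.Finite) : (ZI K D P dS A).Finite ∧
      (ZI K D P dS A).ncard = (Sl (D.T.erase P)).card * A.ncard := by
  rw [zi_image]
  refine ⟨(prs_fin hAf).image _, ?_⟩
  rw [(inj hZ hg hD hP hdS hA).ncard_image]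
  have h1 : Prs D P A = A ×ˢ (Sl (D.T.erase P) : Set (Finset (HeightOneSpectrum R))) := by
    ext ⟨f, S⟩
    exact Iff.rfl
  rw [h1, Set.ncard_prod, Set.ncard_coe_finset, mul_comm]

open Classical in
/-- From one polynomial to the family. -/
theorem fipi (hZ : ZINJStmt) (hg : 1 ≤ g) (hD : D.Ok g) {P : HeightOneSpectrum R}
    (hP : P ∈ D.T) {dS : Finset (HeightOneSpectrum R) → R} (hdS : Tws D dS) {ε : ℝ}
    (hε : 0 < ε) {A : Set R[X]} (hA : A ⊆ Fam π g D h) (hAf : A.Finite)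
    (hlaw : ({f | f ∈ A ∧ ¬ LawI K ε D P dS f}.ncard : ℝ) ≤ ε * A.ncard) :
    (0.2097 - 2 * ε) * (ZI K D P dS A).ncard ≤
      {q | q ∈ ZI K D P dS A ∧ SelTwo P q}.ncard := by
  obtain ⟨hZf, hZc⟩ := zi_card (K := K) hZ hg hD hP hdS hA hAf
  rcases le_or_gt (0.2097 - 2 * ε) 0 with hneg | hpos
  · exact (mul_nonpos_of_nonpos_of_nonneg hneg (Nat.cast_nonneg _)).trans (Nat.cast_nonneg _)
  -- the pairs
  set W : Finset (R[X] × Finset (HeightOneSpectrum R)) :=
    (hAf.toFinset ×ˢ Sl (D.T.erase P)).filter fun z => SelTwo P (tws K P dS z) with hW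
  have hWs : (W : Set (R[X] × Finset (HeightOneSpectrum R))) ⊆ Prs D P A := by
    intro z hz
    rw [hW, Finset.mem_coe, Finset.mem_filter, Finset.mem_product, Set.Finite.mem_toFinset] at hz
    exact hz.1
  have h1 : tws K P dS '' (W : Set (R[X] × Finset (HeightOneSpectrum R))) ⊆
      {q | q ∈ ZI K D P dS A ∧ SelTwo P q} := by
    rintro _ ⟨z, hz, rfl⟩
    refine ⟨?_, ?_⟩
    · rw [zi_image]
      exact ⟨z, hWs hz, rfl⟩
    · rw [hW, Finset.mem_coe, Finset.mem_filter] at hz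
      exact hz.2
  have h2 : W.card ≤ {q | q ∈ ZI K D P dS A ∧ SelTwo P q}.ncard := by
    rw [← Set.ncard_coe_finset W, ← ((inj hZ hg hD hP hdS hA).mono hWs).ncard_image]
    exact Set.ncard_le_ncard h1 (hZf.subset fun q hq => hq.1)
  have h3 : W.card = ∑ f ∈ hAf.toFinset,
      ((Sl (D.T.erase P)).filter fun S => SelTwo P (tws K P dS (f, S))).card := by
    rw [hW, Finset.card_filter, Finset.sum_product]
    refine Finset.sum_congr rfl fun f _ => ?_
    rw [Finset.card_filter]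
  -- the good polynomials
  set G : Finset R[X] := hAf.toFinset.filter fun f => LawI K ε D P dS f with hG
  have h4 : ∀ f ∈ G, (0.2097 - ε) * ((Sl (D.T.erase P)).card : ℝ) ≤
      (((Sl (D.T.erase P)).filter fun S => SelTwo P (tws K P dS (f, S))).card : ℝ) := by
    intro f hf
    rw [hG, Finset.mem_filter] at hf
    refine le_trans hf.2 ?_
    have h5 : {S | S ∈ Sl (D.T.erase P) ∧ (SelG (fk K (f.scaleRoots (dS S)))).ncard = 1 ∧
        SelTwo P (fk K (f.scaleRoots (dS (insert P S))))} ⊆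
        (((Sl (D.T.erase P)).filter fun S => SelTwo P (tws K P dS (f, S)) :
          Finset (Finset (HeightOneSpectrum R))) : Set (Finset (HeightOneSpectrum R))) := by
      rintro S ⟨a1, -, a3⟩
      rw [Finset.mem_coe, Finset.mem_filter]
      exact ⟨a1, a3⟩
    have h6 := Set.ncard_le_ncard h5 (Finset.finite_toSet _)
    rw [Set.ncard_coe_finset] at h6
    exact_mod_cast h6
  have h5 : (G.card : ℝ) * ((0.2097 - ε) * ((Sl (D.T.erase P)).card : ℝ)) ≤ (W.card : ℝ) := by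
    rw [h3]
    push_cast
    calc (G.card : ℝ) * ((0.2097 - ε) * ((Sl (D.T.erase P)).card : ℝ)) =
        ∑ f ∈ G, (0.2097 - ε) * ((Sl (D.T.erase P)).card : ℝ) := by
          rw [Finset.sum_const, nsmul_eq_mul]
      _ ≤ ∑ f ∈ G, (((Sl (D.T.erase P)).filter fun S => SelTwo P (tws K P dS (f, S))).card : ℝ) :=
          Finset.sum_le_sum h4
      _ ≤ _ := Finset.sum_le_sum_of_subset_of_nonneg (Finset.filter_subset _ _)
          fun f _ _ => Nat.cast_nonneg _
  have h6 : (A.ncard : ℝ) * (1 - ε) ≤ (G.card : ℝ) := by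
    have h7 : {f | f ∈ A ∧ ¬ LawI K ε D P dS f} =
        ((hAf.toFinset.filter fun f => ¬ LawI K ε D P dS f : Finset R[X]) : Set R[X]) := by
      ext f
      simp
    rw [h7, Set.ncard_coe_finset] at hlaw
    have h8 := Finset.card_filter_add_card_filter_not (s := hAf.toFinset)
      (fun f => LawI K ε D P dS f)
    have h9 : A.ncard = hAf.toFinset.card := Set.ncard_eq_toFinset_card A hAf
    have h10 : (G.card : ℝ) + ((hAf.toFinset.filter fun f => ¬ LawI K ε D P dS f).card : ℝ) =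
        (A.ncard : ℝ) := by
      rw [h9, ← h8]
      push_cast
      rfl
    linarith
  have h7 : (W.card : ℝ) ≤ ({q | q ∈ ZI K D P dS A ∧ SelTwo P q}.ncard : ℝ) := by
    exact_mod_cast h2
  refine le_trans ?_ h7
  refine le_trans ?_ h5
  rw [hZc]
  push_cast
  have hs : (0 : ℝ) ≤ ((Sl (D.T.erase P)).card : ℝ) := Nat.cast_nonneg _
  have ha : (0 : ℝ) ≤ (A.ncard : ℝ) := Nat.cast_nonneg _
  have h8 : (0.2097 - 2 * ε) ≤ (1 - ε) * (0.2097 - ε) := by nlinarith
  calc (0.2097 - 2 * ε) * (((Sl (D.T.erase P)).card : ℝ) * (A.ncard : ℝ)) ≤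
      ((1 - ε) * (0.2097 - ε)) * (((Sl (D.T.erase P)).card : ℝ) * (A.ncard : ℝ)) :=
        mul_le_mul_of_nonneg_right h8 (by positivity)
    _ = ((A.ncard : ℝ) * (1 - ε)) * ((0.2097 - ε) * ((Sl (D.T.erase P)).card : ℝ)) := by ring
    _ ≤ _ := mul_le_mul_of_nonneg_right h6 (mul_nonneg (by linarith) hs)

end Fipi13

end Pool.PRK
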