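import Pool.Agent.H13.PRK.S8
import Pool.Agent.H73.PRK.LAWK

/-!
# PRK, row LAWI: the law for almost all polynomials (one extra prime)
-/

set_option autoImplicit false

namespace Pool.PRK

open Polynomial Matrix Pool.HYP Pool.TOW Pool.AVS Pool.T1 IsDedekindDomain

namespace Lawi13

open Lawk73

section Sets

variable {R : Type} [CommRing R] [IsDomain R]

theorem mem_tq {T : Finset (HeightOneSpectrum R)} {P : HeightOneSpectrum R}
    {Q : {Q : HeightOneSpectrum R // Q ∈ T}} :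
    Q ∈ tq T P ↔ (Q : HeightOneSpectrum R) ≠ P := by
  classical
  unfold tq
  rw [Finset.mem_filter]
  exact ⟨fun h => h.2, fun h => ⟨Finset.mem_univ _, h⟩⟩

theorem mem_sl' {T : Type} [Fintype T] [DecidableEq T] {T1 : Finset T} {k : ℕ} {D : Finset T} :
    D ∈ PRL.sl T1 ∅ k ↔ D ⊆ T1 ∧ D.card = k := by
  unfold PRL.sl
  rw [Finset.mem_filter, Finset.sdiff_eq_empty_iff_subset]
  constructor
  · rintro ⟨-, h1, h2⟩
    rw [Finset.inter_eq_left.2 h1] at h2
    exact ⟨h1, h2⟩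
  · rintro ⟨h1, h2⟩
    refine ⟨Finset.mem_univ _, h1, ?_⟩
    rw [Finset.inter_eq_left.2 h1]
    exact h2

theorem card_sl' {T : Type} [Fintype T] [DecidableEq T] (T1 : Finset T) (k : ℕ) :
    (PRL.sl T1 ∅ k).card = T1.card.choose k := by
  have h : PRL.sl T1 ∅ k = Finset.powersetCard k T1 := by
    ext D
    rw [mem_sl', Finset.mem_powersetCard]
  rw [h, Finset.card_powersetCard]

theorem card_two {T : Type} [Fintype T] [DecidableEq T] {T1 : Finset T} {j : ℕ}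
    (hT : T1.card = 2 * j + 1) :
    (PRL.sl T1 ∅ j ∪ PRL.sl T1 ∅ (j + 1)).card = 2 * (2 * j + 1).choose j := by
  have hdisj : Disjoint (PRL.sl T1 ∅ j) (PRL.sl T1 ∅ (j + 1)) := by
    rw [Finset.disjoint_left]
    intro D h1 h2
    rw [mem_sl'] at h1 h2
    omega
  rw [Finset.card_union_of_disjoint hdisj, card_sl', card_sl', hT, choose_succ]
  ring

open Classical in
theorem image_sb' {T : Finset (HeightOneSpectrum R)} {P : HeightOneSpectrum R} (hP : P ∈ T)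
    {j : ℕ} (hT : T.card = 2 * j + 2) :
    sb T '' (Sl (T.erase P) : Set (Finset (HeightOneSpectrum R))) =
      ↑(PRL.sl (tq T P) ∅ j ∪ PRL.sl (tq T P) ∅ (j + 1)) := by
  have hc : (T.erase P).card = 2 * j + 1 := by
    rw [Finset.card_erase_of_mem hP, hT]
    rfl
  have hj : (T.erase P).card / 2 = j := by omega
  ext D
  simp only [Set.mem_image, Finset.mem_coe, Finset.mem_union, mem_sl', mem_Sl, hj]
  constructor
  · rintro ⟨S, ⟨hS, hc⟩, rfl⟩
    have hST : S ⊆ T := hS.trans (Finset.erase_subset _ _)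
    have h1 : sb T S ⊆ tq T P := by
      intro Q hQ
      rw [mem_tq]
      exact (Finset.mem_erase.1 (hS (mem_sb.1 hQ))).1
    rw [sb_card hST]
    rcases hc with h | h
    · exact Or.inl ⟨h1, h⟩
    · exact Or.inr ⟨h1, h⟩
  · intro hD
    have hD1 : D ⊆ tq T P := by
      rcases hD with h | h
      · exact h.1
      · exact h.1
    have hD2 : D.card = j ∨ D.card = j + 1 := by
      rcases hD with h | h
      · exact Or.inl h.2
      · exact Or.inr h.2
    obtain ⟨S, hS⟩ : ∃ S : Finset (HeightOneSpectrum R), S = D.image Subtype.val := ⟨_, rfl⟩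
    have hmS : ∀ Q : {Q : HeightOneSpectrum R // Q ∈ T}, (Q : HeightOneSpectrum R) ∈ S ↔ Q ∈ D := by
      intro Q
      rw [hS, Finset.mem_image]
      constructor
      · rintro ⟨Q', hQ, h⟩
        have : Q' = Q := Subtype.ext h
        rwa [← this]
      · intro h
        exact ⟨Q, h, rfl⟩
    have hST : S ⊆ T.erase P := by
      intro Q hQ
      rw [hS, Finset.mem_image] at hQ
      obtain ⟨Q', hQ', rfl⟩ := hQ
      exact Finset.mem_erase.2 ⟨mem_tq.1 (hD1 hQ'), Q'.2⟩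
    have hDS : sb T S = D := by
      ext Q
      rw [mem_sb, hmS]
    refine ⟨S, ⟨hST, ?_⟩, hDS⟩
    rw [← sb_card (hST.trans (Finset.erase_subset _ _)), hDS]
    exact hD2

end Sets

section Main

variable {R : Type} [CommRing R] [IsDomain R] {K : Type} [Field K] [Algebra R K]

open Classical in
/-- The law for one good polynomial. -/
theorem lawI_of_good (hFLP : PRL.FLPStmt) (hIDN : PRL.IDNStmt) {ε η : ℝ} {k0 : ℕ}
    (hS : ∀ (T : Type) [Fintype T] [DecidableEq T] (T1 D2 : Finset T) (j : ℕ), Disjoint T1 D2 →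
      T1.card = 2 * j + 1 → k0 ≤ j → ∀ M : AddSubgroup (T → PRL.Ty), (∀ m ∈ M, PRL.qf m = 0) →
      Nat.card M = 2 ^ Fintype.card T →
      ({D | D ∈ PRL.sl T1 D2 j ∪ PRL.sl T1 D2 (j + 1) ∧
        ∃ m ∈ M, m ≠ 0 ∧ m ∈ PRL.LS D ∧ ¬ PRL.Bal η T1 D m}.ncard : ℝ) ≤
          η * ((2 * j + 1).choose j : ℝ) →
      ∀ B : ℕ, ∑ r ∈ Finset.range B, |({D | D ∈ PRL.sl T1 D2 j ∪ PRL.sl T1 D2 (j + 1) ∧
        {m | m ∈ M ∧ m ∈ PRL.LS D}.ncard = 2 ^ r}.ncard : ℝ) / ((2 * j + 1).choose j : ℝ) -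
          2 * PRL.PR r| ≤ 2 * ε)
    {O : ValuationSubring K} {π : K} {g : ℕ} {Ram : Finset (HeightOneSpectrum R)}
    (hMlg : MlgP O π g Ram) (D : Dat R O) (h j : ℕ) (hOk : D.Ok g) (hRam : Ram ⊆ D.T')
    (hT : D.T.card = 2 * j + 2) (hj : k0 ≤ j) {P : HeightOneSpectrum R} (hP : P ∈ D.T)
    (ϖ : HeightOneSpectrum R → R) (hϖ : Uni D.T ϖ)
    (dS : Finset (HeightOneSpectrum R) → R) (hdS : Tws D dS) (f : R[X]) (hf : f ∈ FamS π g D h)
    (hStw : ∀ S ⊆ D.T, P ∉ S → (SelG (fk K (f.scaleRoots (dS S)))).Finite →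
      (SelG (fk K (f.scaleRoots (dS S)))).ncard = 1 →
      ∀ (u : (AdjoinRoot (fk K (f.scaleRoots (dS (insert P S)))))ˣ) (α : K[X]),
      (QuotientGroup.mk u : (AdjoinRoot (fk K (f.scaleRoots (dS (insert P S)))))ˣ ⧸
        SqG (fk K (f.scaleRoots (dS (insert P S))))) ∈
          SelG (fk K (f.scaleRoots (dS (insert P S)))) →
      AdjoinRoot.mk (fk K (f.scaleRoots (dS (insert P S)))) α =
        (u : AdjoinRoot (fk K (f.scaleRoots (dS (insert P S))))) →
      (¬ ∃ s, fk K (f.scaleRoots (dS (insert P S))) ∣ α - s ^ 2) →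
      NTr P (fk K (f.scaleRoots (dS (insert P S)))) α)
    (hG : GoodI K η D P ϖ j f) : LawI K ε D P dS f := by
  obtain ⟨M, hq, hM, hpat, hsel⟩ := hMlg D h hOk hRam f hf ϖ hϖ hG.1
  have hcT : Fintype.card {P : HeightOneSpectrum R // P ∈ D.T} = D.T.card := Fintype.card_coe _
  have himg := image_sb' hP hT
  have hM' : Nat.card M = 2 ^ Fintype.card {P : HeightOneSpectrum R // P ∈ D.T} := by rw [hcT, hM]
  have hcT1 : (tq D.T P).card = 2 * j + 1 := by
    have h1 : tq D.T P = Finset.univ.erase (⟨P, hP⟩ : {Q : HeightOneSpectrum R // Q ∈ D.T}) := by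
      ext Q
      rw [mem_tq, Finset.mem_erase]
      constructor
      · intro h
        exact ⟨fun e => h (congrArg Subtype.val e), Finset.mem_univ _⟩
      · rintro ⟨h, -⟩
        exact fun e => h (Subtype.ext e)
    rw [h1, Finset.card_erase_of_mem (Finset.mem_univ _), Finset.card_univ, hcT, hT]
    rfl
  have k1 := card_two hcT1
  have k4 := hS {P : HeightOneSpectrum R // P ∈ D.T} (tq D.T P) ∅ j
    (by rw [Finset.disjoint_left]; intro P _ hP; exact absurd hP (Finset.notMem_empty _))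
    hcT1 hj M hq hM' (by
      refine le_trans ?_ hG.2
      refine Nat.cast_le.2 (Set.ncard_le_ncard ?_ (Set.toFinite _))
      rintro S ⟨hS', m, hm, hm0, hmL, hmB⟩
      exact ⟨hS', m, hm0, hmL, hmB, hpat m hm hm0⟩) 1
  have hsub : ∀ S ∈ Sl (D.T.erase P), S ⊆ D.T ∧ P ∉ S := fun S hS' =>
    ⟨(mem_Sl.1 hS').1.trans (Finset.erase_subset _ _), fun h1 =>
      (Finset.mem_erase.1 ((mem_Sl.1 hS').1 h1)).1 rfl⟩
  have hinj : Set.InjOn (sb D.T) (Sl (D.T.erase P) : Set (Finset (HeightOneSpectrum R))) := by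
    intro S hS' S' hS'' h
    exact sb_inj (hsub S hS').1 (hsub S' hS'').1 h
  have hsel' : ∀ S ⊆ D.T, (SelG (fk K (f.scaleRoots (dS S)))).Finite ∧
      (SelG (fk K (f.scaleRoots (dS S)))).ncard = {m | m ∈ M ∧ m ∈ PRL.LS (sb D.T S)}.ncard :=
    fun S hS' => hsel S hS' (dS S) (hdS S hS')
  have key : {S | S ∈ Sl (D.T.erase P) ∧
      (SelG (fk K (f.scaleRoots (dS S)))).ncard = 1}.ncard =
      {S | S ∈ PRL.sl (tq D.T P) ∅ j ∪ PRL.sl (tq D.T P) ∅ (j + 1) ∧
        {m | m ∈ M ∧ m ∈ PRL.LS S}.ncard = 2 ^ 0}.ncard := by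
    rw [← (hinj.mono fun S hS' => hS'.1).ncard_image (f := sb D.T)]
    congr 1
    ext S'
    constructor
    · rintro ⟨S, ⟨a1, a2⟩, rfl⟩
      refine ⟨?_, ?_⟩
      · have : sb D.T S ∈ sb D.T '' (Sl (D.T.erase P) : Set (Finset (HeightOneSpectrum R))) :=
          ⟨S, a1, rfl⟩
        rw [himg] at this
        exact this
      · rw [← (hsel' S (hsub S a1).1).2, pow_zero]
        exact a2
    · rintro ⟨a1, a2⟩
      have : S' ∈ sb D.T '' (Sl (D.T.erase P) : Set (Finset (HeightOneSpectrum R))) := by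
        rw [himg]
        exact a1
      obtain ⟨S, b1, b2⟩ := this
      refine ⟨S, ⟨b1, ?_⟩, b2⟩
      rw [(hsel' S (hsub S b1).1).2, b2, ← pow_zero 2]
      exact a2
  have hcard : (Sl (D.T.erase P)).card = 2 * (2 * j + 1).choose j := by
    rw [← k1, ← Set.ncard_coe_finset (_ ∪ _), ← himg,
      hinj.ncard_image, Set.ncard_coe_finset]
  -- the second Selmer group
  have hincl : {S | S ∈ Sl (D.T.erase P) ∧ (SelG (fk K (f.scaleRoots (dS S)))).ncard = 1} ⊆
      {S | S ∈ Sl (D.T.erase P) ∧ (SelG (fk K (f.scaleRoots (dS S)))).ncard = 1 ∧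
      SelTwo P (fk K (f.scaleRoots (dS (insert P S))))} := by
    rintro S ⟨a1, a2⟩
    obtain ⟨hST, hPS⟩ := hsub S a1
    have hiT : insert P S ⊆ D.T := Finset.insert_subset hP hST
    refine ⟨a1, a2, ?_, hStw S hST hPS (hsel' S hST).1 a2⟩
    have hsb : sb D.T (insert P S) = insert (⟨P, hP⟩ : {Q : HeightOneSpectrum R // Q ∈ D.T})
        (sb D.T S) := by
      ext Q
      rw [mem_sb, Finset.mem_insert, Finset.mem_insert, mem_sb]
      constructor
      · rintro (h1 | h1)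
        · exact Or.inl (Subtype.ext h1)
        · exact Or.inr h1
      · rintro (h1 | h1)
        · exact Or.inl (congrArg Subtype.val h1)
        · exact Or.inr h1
    have h1 : {m | m ∈ M ∧ m ∈ PRL.LS (sb D.T S)}.ncard = 1 := by
      rw [← (hsel' S hST).2]
      exact a2
    have h0 : (0 : {Q : HeightOneSpectrum R // Q ∈ D.T} → PRL.Ty) ∈
        {m | m ∈ M ∧ m ∈ PRL.LS (sb D.T S)} := by
      refine ⟨M.zero_mem, fun v => ?_⟩
      by_cases hv : v ∈ sb D.T S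
      · rw [if_pos hv]; rfl
      · rw [if_neg hv]; rfl
    obtain ⟨a, ha⟩ := Set.ncard_eq_one.1 h1
    have hall : ∀ m ∈ M, m ∈ PRL.LS (sb D.T S) →
        m (⟨P, hP⟩ : {Q : HeightOneSpectrum R // Q ∈ D.T}) = 0 := by
      intro m hm hm2
      have h2 : m ∈ {m | m ∈ M ∧ m ∈ PRL.LS (sb D.T S)} := ⟨hm, hm2⟩
      rw [ha, Set.mem_singleton_iff] at h2 h0
      rw [h2, ← h0]
      rfl
    have hnot : (⟨P, hP⟩ : {Q : HeightOneSpectrum R // Q ∈ D.T}) ∉ sb D.T S := by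
      rw [mem_sb]
      exact hPS
    have h3 := ((hFLP _ M hq hM' (sb D.T S) _ hnot).2 hall).1
    rw [(hsel' _ hiT).2, hsb, h3, h1]
  have h5 := k4
  rw [Finset.sum_range_one, ← key] at h5
  have hc : (0 : ℝ) < ((2 * j + 1).choose j : ℝ) := by
    have : 0 < (2 * j + 1).choose j := Nat.choose_pos (by omega)
    exact_mod_cast this
  have h6 := (abs_le.1 h5).1
  have h7 : (0.2097 : ℝ) < PRL.PR 0 := hIDN.2.2.2.2.1
  have h8 : 2 * (PRL.PR 0 - ε) * ((2 * j + 1).choose j : ℝ) ≤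
      ({S | S ∈ Sl (D.T.erase P) ∧
        (SelG (fk K (f.scaleRoots (dS S)))).ncard = 1}.ncard : ℝ) := by
    rw [← le_div_iff₀ hc]
    linarith
  have h9 : ({S | S ∈ Sl (D.T.erase P) ∧
        (SelG (fk K (f.scaleRoots (dS S)))).ncard = 1}.ncard : ℝ) ≤
      ({S | S ∈ Sl (D.T.erase P) ∧ (SelG (fk K (f.scaleRoots (dS S)))).ncard = 1 ∧
      SelTwo P (fk K (f.scaleRoots (dS (insert P S))))}.ncard : ℝ) := by
    exact_mod_cast Set.ncard_le_ncard hincl ((Finset.finite_toSet _).subset fun S hS' => hS'.1)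
  unfold LawI
  rw [hcard]
  push_cast
  refine le_trans ?_ (h8.trans h9)
  have h10 : (0.2097 - ε) * (2 * ((2 * j + 1).choose j : ℝ)) =
      2 * (0.2097 - ε) * ((2 * j + 1).choose j : ℝ) := by ring
  rw [h10]
  exact mul_le_mul_of_nonneg_right (by linarith) hc.le

end Main

end Lawi13

open Classical in
/-- LAWI: the law for almost all polynomials. -/
theorem lawi (hGDI : GDIKStmt) (hBLC : PRL.BLCStmt) (hSLC : PRL.SLCStmt) (hFLP : PRL.FLPStmt)
    (hIDN : PRL.IDNStmt) (hSTW : STWKStmt) (hTAK : TAKStmt) (hSEL : SELKStmt) (hCMP : CMPKStmt)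
    (hINO : INOKStmt)
    (R : Type) [CommRing R] [IsDedekindDomain R] (K : Type) [Field K] [Algebra R K]
    [IsFractionRing R K] (O : ValuationSubring K) (π : K) (hGR : GR R O π) (hOnly : Only R O)
    (g : ℕ) (hg : 1 ≤ g)
    (T' A Ram : Finset (HeightOneSpectrum R)) (C b : ℕ) (hAv : AvP O π g T' C b)
    (hDen : DenP O π g A) (hA : A ⊆ T') (hMlg : MlgP O π g Ram) (hRam : Ram ⊆ T')
    (hfin : ∀ (D : Dat R O) (h : ℕ), D.Ok g → (Fam π g D h).Finite)
    (hTw : ∀ D : Dat R O, D.Ok g → D.T' = T' → ∀ y : HeightOneSpectrum R → Ty,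
      ∃ (d : R) (E : ℕ), TwE O π D y d E) (ε : ℝ) (hε : 0 < ε) :
    ∃ k₀ : ℕ, ∀ (D : Dat R O) (j : ℕ), D.Ok g → D.T' = T' →
    D.T.card = 2 * j + 2 → k₀ ≤ j →
    (∀ P ∈ D.T, b < Nm P ∧ 2 * (2 * g + 1) * D.T.card ≤ Nm P) → ∀ P ∈ D.T,
    ∀ dS : Finset (HeightOneSpectrum R) → R, Tws D dS → ∃ h₀ : ℕ, ∀ h : ℕ, h₀ ≤ h →
      ({f | f ∈ FamS π g D h ∧ ¬ LawI K ε D P dS f}.ncard : ℝ) ≤
        ε * (FamS π g D h).ncard := by
  obtain ⟨k1, η, hη, hS⟩ := hSLC (2 * ε) (by linarith)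
  obtain ⟨k2, hgd⟩ := hGDI R K O π g T' A C b hBLC hAv hDen hA hfin hTw ε η hε hη
  refine ⟨max k1 k2, ?_⟩
  intro D j hOk hT' hT hj hNm P hP dS hdS
  obtain ⟨ϖ, hϖe⟩ : ∃ ϖ : HeightOneSpectrum R → R, ∀ P, ϖ P = dS {P} := ⟨fun P => dS {P}, fun _ => rfl⟩
  have hϖ : Uni D.T ϖ := by
    intro P hPT
    have h1 := (hdS {P} (Finset.singleton_subset_iff.2 hPT)).2.1 P (Finset.mem_singleton_self P)
    rw [hϖe]
    exact h1
  obtain ⟨h₀, hh⟩ := hgd D j hOk hT' hT ((le_max_right _ _).trans hj) hNm P hP ϖ hϖ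
  refine ⟨h₀, fun h hh' => le_trans ?_ (hh h hh')⟩
  have hf : (FamS π g D h).Finite := (hfin D h hOk).subset fun f hf => hf.1
  refine Nat.cast_le.2 (Set.ncard_le_ncard ?_ (hf.subset fun f hf => hf.1))
  rintro f ⟨hf1, hL⟩
  refine ⟨hf1, fun hG => hL ?_⟩
  refine Lawi13.lawI_of_good hFLP hIDN hS hMlg D h j hOk (by rw [hT']; exact hRam) hT
    ((le_max_left _ _).trans hj) hP ϖ hϖ dS hdS f hf1 ?_ hG
  intro S hST hPS hfinS hcardS u α
  exact hSTW hTAK hSEL hCMP hINO R K O π hGR hOnly g D h hg hOk f hf1 ϖ hϖ S hST P hP hPS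
    (insert P S) (fun Q => Finset.mem_insert) (dS S) (dS (insert P S)) (hdS S hST)
    (hdS _ (Finset.insert_subset hP hST)) hfinS hcardS u α

end Pool.PRK
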