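import Pool.Agent.H13.PRK.S8
import Pool.Agent.H45.PRK.SHAK
import Pool.Agent.H15.PRK.SGK

/-!
# PRK, row SHAI: translation (one extra prime)
-/

set_option autoImplicit false

namespace Pool.PRK

open Polynomial Matrix Pool.HYP Pool.TOW Pool.AVS Pool.T1 IsDedekindDomain Pool.HYP.H20

namespace Shai13

section Sel

variable {K : Type} [Field K]

/-- The classes in the Selmer group. -/
theorem memSel {F : K[X]} {u : (AdjoinRoot F)ˣ} {α : K[X]}
    (hα : AdjoinRoot.mk F α = (u : AdjoinRoot F)) :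
    (QuotientGroup.mk u : (AdjoinRoot F)ˣ ⧸ SqG F) ∈ SelG F ↔
      NSq F α ∧ ∀ (L : Type) [Field L] (O' : ValuationSubring L) (ι : K →+* L), Cpl K L O' ι →
        LocSol (F.map ι) (α.map ι) := by
  constructor
  · rintro ⟨u', p', h1, h2, h3, h4⟩
    rw [QuotientGroup.eq] at h1
    obtain ⟨t, ht⟩ := h1
    have ht' : (u : AdjoinRoot F) = (u' : AdjoinRoot F) * (t : AdjoinRoot F) ^ 2 := by
      have h5 : u = u' * t ^ 2 := by
        have h6 : t ^ 2 = u'⁻¹ * u := ht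
        rw [h6, mul_inv_cancel_left]
      rw [h5]
      push_cast
      rfl
    have hti : (u' : AdjoinRoot F) = (u : AdjoinRoot F) *
        ((t⁻¹ : (AdjoinRoot F)ˣ) : AdjoinRoot F) ^ 2 := by
      rw [ht', mul_assoc, ← mul_pow, Units.mul_inv, one_pow, mul_one]
    obtain ⟨q, hq⟩ := AdjoinRoot.mk_surjective ((t⁻¹ : (AdjoinRoot F)ˣ) : AdjoinRoot F)
    have hdv : F ∣ p' - α * q ^ 2 := by
      rw [← AdjoinRoot.mk_eq_mk, map_mul, map_pow, h2, hα, hq, ← hti]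
    refine ⟨?_, ?_⟩
    · unfold NSq at h3 ⊢
      rw [h2] at h3
      rw [hα, ht', map_mul, map_pow]
      exact h3.mul ⟨_, by rw [sq]⟩
    · intro L _ O' ι hL
      exact H15.loc_sq ι _ α p' q hdv (h4 L O' ι hL)
  · rintro ⟨hN, hloc⟩
    exact ⟨u, α, rfl, hα, hN, hloc⟩

theorem map_cmp {L : Type} [Field L] (ι : K →+* L) (ρ : K) (p : K[X]) :
    (p.comp (X + C ρ)).map ι = (p.map ι).comp (X + C (ι ρ)) := by
  rw [Polynomial.map_comp]
  simp

theorem sq_comp {f f' : K[X]} {ρ : K} (h : f' = f.comp (X + C ρ)) {p : K[X]}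
    (hs : ∃ s, f ∣ p - s ^ 2) : ∃ s, f' ∣ p.comp (X + C ρ) - s ^ 2 := by
  obtain ⟨s, r, hr⟩ := hs
  refine ⟨s.comp (X + C ρ), r.comp (X + C ρ), ?_⟩
  rw [h, ← pow_comp, ← sub_comp, hr, mul_comp]

theorem nsq_comp {f f' : K[X]} {ρ : K} (h : f' = f.comp (X + C ρ)) {p : K[X]}
    (hn : NSq f p) : NSq f' (p.comp (X + C ρ)) := by
  have hEp : trE f f' ρ h (AdjoinRoot.mk f p) = AdjoinRoot.mk f' (p.comp (X + C ρ)) := by
    rw [trE_mk]
  have h3 := Algebra.norm_eq_of_algEquiv (trE f f' ρ h) (AdjoinRoot.mk f p)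
  rw [hEp] at h3
  unfold NSq at hn ⊢
  rw [h3]
  exact hn

theorem selTwo_comp {R : Type} [CommRing R] [IsDomain R] [Algebra R K] {P : HeightOneSpectrum R}
    {f f' : K[X]} {ρ : K} (h : f' = f.comp (X + C ρ)) (hS : SelTwo P f) : SelTwo P f' := by
  refine ⟨by rw [(SHAK.sel_comp h).2]; exact hS.1, ?_⟩
  intro u' α' hmem hα' hnt
  have hback : f = f'.comp (X + C (-ρ)) := by rw [h, comp_comp_add]
  obtain ⟨α, hα⟩ : ∃ α : K[X], α = α'.comp (X + C (-ρ)) := ⟨_, rfl⟩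
  have hαα : α.comp (X + C ρ) = α' := by rw [hα, comp_comp_add']
  have hc' : IsCoprime α' f' := Pool.HYP.H33.coprime_of_unit (by rw [hα']; exact u'.isUnit)
  have hc : IsCoprime α f := by
    obtain ⟨a, b, hab⟩ := hc'
    refine ⟨a.comp (X + C (-ρ)), b.comp (X + C (-ρ)), ?_⟩
    rw [hα, hback, ← mul_comp, ← mul_comp, ← add_comp, hab, one_comp]
  have hu : IsUnit (AdjoinRoot.mk f α) := by
    obtain ⟨a, b, hab⟩ := hc
    refine IsUnit.of_mul_eq_one (AdjoinRoot.mk f a) ?_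
    rw [← map_mul, ← map_one (AdjoinRoot.mk f), AdjoinRoot.mk_eq_mk]
    exact ⟨-b, by linear_combination hab⟩
  obtain ⟨u, hu⟩ := hu
  have h1 := (memSel hα').1 hmem
  have h2 : (QuotientGroup.mk u : (AdjoinRoot f)ˣ ⧸ SqG f) ∈ SelG f := by
    refine (memSel hu.symm).2 ⟨?_, ?_⟩
    · rw [hα]
      exact nsq_comp hback h1.1
    · intro L _ O' ι hL
      have h3 := locSol_comp (-ι ρ) (h1.2 L O' ι hL)
      have h4 : (f'.map ι).comp (X + C (-ι ρ)) = f.map ι := by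
        rw [hback, map_cmp, map_neg ι]
      have h5 : (α'.map ι).comp (X + C (-ι ρ)) = α.map ι := by
        rw [hα, map_cmp, map_neg ι]
      rw [h4, h5] at h3
      exact h3
  have h3 : ¬ ∃ s, f ∣ α - s ^ 2 := by
    intro h4
    apply hnt
    have h5 := sq_comp h h4
    rw [hαα] at h5
    exact h5
  obtain ⟨ϖ, L, iL, O', ι, hC, hns⟩ := hS.2 u α h2 hu.symm h3
  refine ⟨ϖ, L, iL, O', ι, hC, fun h4 => hns ?_⟩
  have h6 : f.map ι = (f'.map ι).comp (X + C (-ι ρ)) := by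
    rw [hback, map_cmp, map_neg ι]
  have h5 := sq_comp h6 h4
  have h7 : (α'.map ι).comp (X + C (-ι ρ)) = α.map ι := by
    rw [hα, map_cmp, map_neg ι]
  rw [h7] at h5
  exact h5

theorem selTwo_iff {R : Type} [CommRing R] [IsDomain R] [Algebra R K] {P : HeightOneSpectrum R}
    {f f' : K[X]} {ρ : K} (h : f' = f.comp (X + C ρ)) : SelTwo P f' ↔ SelTwo P f :=
  ⟨fun hS => selTwo_comp (ρ := -ρ) (by rw [h, comp_comp_add]) hS, selTwo_comp h⟩

end Sel

variable {R : Type} [CommRing R] [IsDomain R] {K : Type} [Field K] [Algebra R K]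
  {O : ValuationSubring K} {π : K}

theorem lawI_tay {ε : ℝ} {D : Dat R O} {P : HeightOneSpectrum R}
    {dS : Finset (HeightOneSpectrum R) → R} {f : R[X]} (t : R) :
    LawI K ε D P dS (taylor t f) ↔ LawI K ε D P dS f := by
  have e : ∀ d : R, fk K ((taylor t f).scaleRoots d) =
      (fk K (f.scaleRoots d)).comp (X + C (algebraMap R K (d * t))) := by
    intro d
    rw [SHAK.tay_scale]
    have h1 : fk K (taylor (d * t) (f.scaleRoots d)) =
      taylor (algebraMap R K (d * t)) (fk K (f.scaleRoots d)) := map_taylor _ _ _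
    rw [h1, taylor_apply]
  have hS : ∀ d : R, (SelG (fk K ((taylor t f).scaleRoots d))).ncard =
        (SelG (fk K (f.scaleRoots d))).ncard := fun d => (SHAK.sel_comp (e d)).2
  have hT : ∀ d : R, SelTwo P (fk K ((taylor t f).scaleRoots d)) ↔
      SelTwo P (fk K (f.scaleRoots d)) := fun d => selTwo_iff (e d)
  unfold LawI
  simp only [hS, hT]

end Shai13

/-- SHAI. -/
theorem shai (R : Type) [CommRing R] [IsDedekindDomain R] (K : Type) [Field K] [Algebra R K]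
    [IsFractionRing R K] (O : ValuationSubring K) (π : K) (hG : GR R O π) (hU : CntU R O π)
    (g : ℕ) (D : Dat R O) (h0 : Tr0 D g) (hN : IsUnit ((2 * g + 1 : ℕ) : R)) (h : ℕ) :
    ∃ n : ℕ, 0 < n ∧ n ≤ (Lm R O π (h : ℤ)).ncard ∧
      (FamS π g D h).ncard = n * {f | f ∈ FamS π g D h ∧ f.coeff (2 * g) = 0}.ncard ∧
      ∀ (ε : ℝ) (P : HeightOneSpectrum R) (dS : Finset (HeightOneSpectrum R) → R),
        {f | f ∈ FamS π g D h ∧ ¬ LawI K ε D P dS f}.ncard =
          n * {f | (f ∈ FamS π g D h ∧ f.coeff (2 * g) = 0) ∧ ¬ LawI K ε D P dS f}.ncard := by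
  obtain ⟨u, hu, hO⟩ := SHAK.inv_nat hG hN
  have hfin : (SHAK.Tr π D h).Finite := (hU ((h : ℤ) - 1)).1.subset fun t ht => ht.1
  refine ⟨(SHAK.Tr π D h).ncard, ?_, ?_, ?_, ?_⟩
  · rw [Set.ncard_pos hfin]
    refine ⟨0, ?_, fun P _ => zero_mem _, fun P _ => zero_mem _⟩
    simp only [Lm, Set.mem_ofPred_eq, map_zero, zero_mul]
    exact zero_mem _
  · refine Set.ncard_le_ncard (fun t ht => ?_) (hU (h : ℤ)).1
    exact SHAK.lm_le hG.pi_ne hG.pi_mem ht.1
  · have h1 := SHAK.cnt (h := h) hG.pi_ne hG.val hG.pi_mem hG.pi_inv h0 hu hO (fun _ => True)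
      (fun _ _ => Iff.rfl)
    simpa using h1
  · intro ε P dS
    exact SHAK.cnt hG.pi_ne hG.val hG.pi_mem hG.pi_inv h0 hu hO
      (fun f => ¬ LawI K ε D P dS f) (fun f t => not_congr (Shai13.lawI_tay t))

end Pool.PRK
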