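import Pool.Agent.H13.PRK.S8
import Pool.Agent.H15.PRK.SGK

/-!
# PRK, row STWK: the nontrivial class of the twist by one more prime is nontrivial there
-/

set_option autoImplicit false

namespace Pool.PRK

open Polynomial Matrix Pool.HYP Pool.TOW Pool.AVS Pool.T1 IsDedekindDomain

namespace Stw13

open H15 Pool.HYP.H33

section Gen

variable {K : Type} [Field K]

theorem cop_of_unit' {f p : K[X]} (h : IsUnit (AdjoinRoot.mk f p)) : IsCoprime p f :=
  coprime_of_unit h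

theorem unit_of_cop {f p : K[X]} (h : IsCoprime p f) : IsUnit (AdjoinRoot.mk f p) := by
  obtain ⟨a, b, hab⟩ := h
  refine IsUnit.of_mul_eq_one (AdjoinRoot.mk f a) ?_
  rw [← map_mul, ← map_one (AdjoinRoot.mk f), AdjoinRoot.mk_eq_mk]
  exact ⟨-b, by linear_combination hab⟩

/-- Coprimality and the scaling of the roots. -/
theorem cop_scale {G p : K[X]} {δ : K} (_hδ : δ ≠ 0) (h : IsCoprime p (G.scaleRoots δ)) :
    IsCoprime (p.comp (C δ * X)) G := by
  obtain ⟨a, b, hab⟩ := h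
  have h1 := congrArg (fun q => q.comp (C δ * X)) hab
  simp only [add_comp, mul_comp, one_comp] at h1
  rw [comp_scale] at h1
  exact ⟨a.comp (C δ * X), b.comp (C δ * X) * C (δ ^ G.natDegree), by
    rw [← h1]; ring⟩

theorem cop_scale' {G p : K[X]} {δ : K} (hδ : δ ≠ 0) (h : IsCoprime (p.comp (C δ * X)) G) :
    IsCoprime p (G.scaleRoots δ) := by
  obtain ⟨a, b, hab⟩ := h
  have h1 : G.scaleRoots δ ∣ (scE δ hδ).symm a * p - 1 := by
    rw [← dvd_scale _ _ _ hδ, sub_comp, mul_comp, one_comp]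
    have h2 : ((scE δ hδ).symm a).comp (C δ * X) = a := (scE δ hδ).apply_symm_apply a
    rw [h2]
    exact ⟨-b, by linear_combination hab⟩
  obtain ⟨r, hr⟩ := h1
  exact ⟨(scE δ hδ).symm a, -r, by linear_combination hr⟩

/-- Squares and the scaling of the roots. -/
theorem sq_scale {G p : K[X]} {δ : K} (hδ : δ ≠ 0) :
    (∃ s, G.scaleRoots δ ∣ p - s ^ 2) ↔ ∃ s, G ∣ p.comp (C δ * X) - s ^ 2 := by
  constructor
  · rintro ⟨s, hs⟩
    refine ⟨s.comp (C δ * X), ?_⟩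
    rw [← dvd_scale _ _ _ hδ, sub_comp, pow_comp] at hs
    exact hs
  · rintro ⟨s, hs⟩
    refine ⟨(scE δ hδ).symm s, ?_⟩
    rw [← dvd_scale _ _ _ hδ, sub_comp, pow_comp]
    have h2 : ((scE δ hδ).symm s).comp (C δ * X) = s := (scE δ hδ).apply_symm_apply s
    rw [h2]
    exact hs

end Gen

section Twist

variable {R : Type} [CommRing R] [IsDomain R] {K : Type} [Field K] [Algebra R K]
  [IsFractionRing R K]

theorem fk_scale {f : R[X]} (hf : f.Monic) (d : R) :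
    fk K (f.scaleRoots d) = (fk K f).scaleRoots (algebraMap R K d) := by
  refine map_scaleRoots f d _ ?_
  rw [hf.leadingCoeff, map_one]
  exact one_ne_zero

theorem del_ne {d : R} (hd : d ≠ 0) : algebraMap R K d ≠ 0 :=
  (map_ne_zero_iff _ (IsFractionRing.injective R K)).2 hd

/-- The classes in the Selmer group of the twist. -/
theorem sel_iff {f : R[X]} (hf : f.Monic) {d : R} (hd : d ≠ 0)
    {u : (AdjoinRoot (fk K (f.scaleRoots d)))ˣ} {α : K[X]}
    (hα : AdjoinRoot.mk (fk K (f.scaleRoots d)) α =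
      (u : AdjoinRoot (fk K (f.scaleRoots d)))) :
    (QuotientGroup.mk u : (AdjoinRoot (fk K (f.scaleRoots d)))ˣ ⧸
        SqG (fk K (f.scaleRoots d))) ∈ SelG (fk K (f.scaleRoots d)) ↔
      NSq (fk K f) (α.comp (C (algebraMap R K d) * X)) ∧
      ∀ (L : Type) [Field L] (O' : ValuationSubring L) (ι : K →+* L), Cpl K L O' ι →
        LSDK ι d f (α.comp (C (algebraMap R K d) * X)) := by
  have hδ0 : algebraMap R K d ≠ 0 := del_ne hd
  have hfK := fk_scale (K := K) hf d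
  have hGm : (fk K f).Monic := hf.map _
  have hNiff : ∀ p : K[X], NSq (fk K f) (p.comp (C (algebraMap R K d) * X)) ↔
      NSq (fk K (f.scaleRoots d)) p := by
    intro p
    unfold NSq
    rw [norm_scale _ _ _ hδ0, ← hfK]
  have hLiff : ∀ (p : K[X]) (L : Type) [Field L] (ι : K →+* L),
      LSDK ι d f (p.comp (C (algebraMap R K d) * X)) ↔
        LocSol ((fk K (f.scaleRoots d)).map ι) (p.map ι) := by
    intro p L _ ι
    rw [loc_iff ι (fk K f) (fk K (f.scaleRoots d)) _ hδ0 hfK hGm p]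
    rfl
  constructor
  · rintro ⟨u', p', h1, h2, h3, h4⟩
    rw [QuotientGroup.eq] at h1
    obtain ⟨t, ht⟩ := h1
    have ht' : (u : AdjoinRoot (fk K (f.scaleRoots d))) =
        (u' : AdjoinRoot (fk K (f.scaleRoots d))) * (t : AdjoinRoot (fk K (f.scaleRoots d))) ^ 2 := by
      have h5 : u = u' * t ^ 2 := by
        have h6 : t ^ 2 = u'⁻¹ * u := ht
        rw [h6, mul_inv_cancel_left]
      rw [h5]
      push_cast
      rfl
    have hti : (u' : AdjoinRoot (fk K (f.scaleRoots d))) =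
        (u : AdjoinRoot (fk K (f.scaleRoots d))) *
          ((t⁻¹ : (AdjoinRoot (fk K (f.scaleRoots d)))ˣ) :
            AdjoinRoot (fk K (f.scaleRoots d))) ^ 2 := by
      rw [ht', mul_assoc, ← mul_pow, Units.mul_inv, one_pow, mul_one]
    obtain ⟨q, hq⟩ := AdjoinRoot.mk_surjective
      ((t⁻¹ : (AdjoinRoot (fk K (f.scaleRoots d)))ˣ) : AdjoinRoot (fk K (f.scaleRoots d)))
    have hdv : fk K (f.scaleRoots d) ∣ p' - α * q ^ 2 := by
      rw [← AdjoinRoot.mk_eq_mk, map_mul, map_pow, h2, hα, hq, ← hti]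
    refine ⟨(hNiff α).2 ?_, ?_⟩
    · unfold NSq at h3 ⊢
      rw [h2] at h3
      rw [hα, ht', map_mul, map_pow]
      exact h3.mul ⟨_, by rw [sq]⟩
    · intro L _ O' ι hL
      exact (hLiff α L ι).2 (loc_sq ι _ α p' q hdv (h4 L O' ι hL))
  · rintro ⟨hN, hloc⟩
    exact ⟨u, α, rfl, hα, (hNiff α).1 hN, fun L _ O' ι hL => (hLiff α L ι).1 (hloc L O' ι hL)⟩

/-- If the Selmer group has one element, its classes are trivial. -/
theorem sel_one {f : R[X]} (hf : f.Monic) {d : R} (hd : d ≠ 0)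
    (hfin : (SelG (fk K (f.scaleRoots d))).Finite)
    (hcard : (SelG (fk K (f.scaleRoots d))).ncard = 1) {α : K[X]}
    (hc : IsCoprime α (fk K f)) (hN : NSq (fk K f) α)
    (hl : ∀ (L : Type) [Field L] (O' : ValuationSubring L) (ι : K →+* L), Cpl K L O' ι →
      LSDK ι d f α) : ∃ s, fk K f ∣ α - s ^ 2 := by
  have hδ0 : algebraMap R K d ≠ 0 := del_ne hd
  have hfK := fk_scale (K := K) hf d
  obtain ⟨β, hβ⟩ := (scE (algebraMap R K d) hδ0).surjective α
  rw [scE_apply] at hβ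
  have hcβ : IsCoprime β (fk K (f.scaleRoots d)) := by
    rw [hfK]
    refine cop_scale' hδ0 ?_
    rw [hβ]
    exact hc
  obtain ⟨U, hU⟩ := unit_of_cop hcβ
  have h1 := (sel_iff hf hd (u := U) (α := β) hU.symm).2 (by rw [hβ]; exact ⟨hN, hl⟩)
  have h2 : (QuotientGroup.mk 1 : (AdjoinRoot (fk K (f.scaleRoots d)))ˣ ⧸
      SqG (fk K (f.scaleRoots d))) ∈ SelG (fk K (f.scaleRoots d)) := by
    refine (sel_iff hf hd (u := 1) (α := 1) (by simp)).2 ?_
    rw [one_comp]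
    refine ⟨?_, ?_⟩
    · unfold NSq
      rw [map_one, map_one]
      exact IsSquare.one
    · intro L _ O' ι _
      refine ⟨1, 0, 1, monic_one, isCoprime_one_left, one_dvd _, ?_⟩
      simp [HYP.kap]
  obtain ⟨a, ha⟩ := Set.ncard_eq_one.1 hcard
  rw [ha, Set.mem_singleton_iff] at h1 h2
  have h3 := h2.trans h1.symm
  rw [QuotientGroup.eq] at h3
  obtain ⟨t, ht⟩ := h3
  have h4 : U = t ^ 2 := by
    have h6 : t ^ 2 = 1⁻¹ * U := ht
    rw [h6, inv_one, one_mul]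
  obtain ⟨q, hq⟩ := AdjoinRoot.mk_surjective (t : AdjoinRoot (fk K (f.scaleRoots d)))
  have h5 : ∃ s, (fk K f).scaleRoots (algebraMap R K d) ∣ β - s ^ 2 := by
    refine ⟨q, ?_⟩
    rw [← hfK, ← AdjoinRoot.mk_eq_mk, map_pow, hq, ← hU, h4]
    push_cast
    rfl
  rw [sq_scale hδ0, hβ] at h5
  exact h5

end Twist

end Stw13

open Stw13 H15 Pool.HYP.H33 in
/-- **STWK.** -/
theorem stwk : STWKStmt := by
  intro hTAK hSEL hCMP hINO R _ _ K _ _ _ O π hGR hOnly g D h hg hOk f hf ϖ hϖ S hS P hPT hPS S'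
    hS' d d' hd hd' hfin hcard u α hmem hα hnt
  have hfm : f.Monic := hf.1.1.1
  have hfn : f.natDegree = 2 * g + 1 := hf.1.1.2.1
  have hd0 : d ≠ 0 := hd.1
  have hd0' : d' ≠ 0 := hd'.1
  have hδ' : algebraMap R K d' ≠ 0 := del_ne hd0'
  have hfK' := fk_scale (K := K) hfm d'
  obtain ⟨α', hα'⟩ : ∃ α' : K[X], α' = α.comp (C (algebraMap R K d') * X) := ⟨_, rfl⟩
  have h1 := (sel_iff hfm hd0' hα).1 hmem
  rw [← hα'] at h1
  have hc : IsCoprime α' (fk K f) := by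
    rw [hα']
    refine cop_scale hδ' ?_
    rw [← hfK']
    exact cop_of_unit' (by rw [hα]; exact u.isUnit)
  have hS'T : S' ⊆ D.T := by
    intro Q hQ
    rcases (hS' Q).1 hQ with h2 | h2
    · rw [h2]; exact hPT
    · exact hS h2
  obtain ⟨hU, hty⟩ := (hSEL R K O π hGR hOnly g D h hg hOk f hf ϖ hϖ S' hS'T d' hd' α' hc
    h1.1).1 h1.2
  obtain ⟨x, hx, hx1, hx2⟩ := hty P hPT
  have hnt' : ¬ ∃ s, fk K f ∣ α' - s ^ 2 := by
    rw [hα', ← sq_scale hδ', ← hfK']
    exact hnt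
  have hx10 : x.1 ≠ 0 := by
    intro hx0
    apply hnt'
    refine sel_one hfm hd0 hfin hcard hc h1.1 ?_
    refine (hSEL R K O π hGR hOnly g D h hg hOk f hf ϖ hϖ S hS d hd α' hc h1.1).2 ⟨hU, ?_⟩
    intro Q hQ
    obtain ⟨y, hy, hy1, hy2⟩ := hty Q hQ
    by_cases hQP : Q = P
    · subst hQP
      exact ⟨x, hx, fun h2 => absurd h2 hPS, fun _ => hx0⟩
    · refine ⟨y, hy, fun h2 => hy1 ((hS' Q).2 (Or.inr h2)), fun h2 => hy2 fun h3 => ?_⟩
      rcases (hS' Q).1 h3 with h4 | h4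
      · exact hQP h4
      · exact h2 h4
  have hUS : ¬ US P.asIdeal f α' := by
    intro h2
    have h3 := (hTAK R K O π hGR P (ϖ P) (hϖ P hPT).1 (hϖ P hPT).2 g (D.c P) (D.γ P) f hg
      (hOk.2.1 P hPT) hfm hfn (hf.1.2.2.1 P hPT)).2.2.2.1 α' x hc h1.1 hx
    exact hx10 (h3.1 h2)
  obtain ⟨ϖ₀, L, iL, O', ι, -, -, hC⟩ := hCMP R K O π hGR P
  refine ⟨ϖ₀, L, iL, O', ι, hC, ?_⟩
  rintro ⟨s, hs⟩
  apply hUS
  obtain ⟨fO, hfOm, hfOn, hfO, -, -, -, hUSL, -⟩ := hINO R K P ϖ₀ L O' ι hC f hfm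
  refine (hUSL α' hc).1 ?_
  -- `α'` is a square modulo `f` over `L`
  have hιδ : ι (algebraMap R K d') ≠ 0 := (map_ne_zero ι).2 hδ'
  have hGs : (fk K (f.scaleRoots d')).map ι = ((fk K f).map ι).scaleRoots
      (ι (algebraMap R K d')) := by
    rw [hfK']
    refine map_scaleRoots (fk K f) _ ι ?_
    rw [(hfm.map _).leadingCoeff, map_one]
    exact one_ne_zero
  have h2 : ∃ s, ((fk K f).map ι) ∣ (α.map ι).comp (C (ι (algebraMap R K d')) * X) - s ^ 2 := by
    rw [← sq_scale hιδ, ← hGs]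
    exact ⟨s, hs⟩
  rw [cmp_map, ← hα'] at h2
  obtain ⟨r, hr⟩ := h2
  have hcL : IsCoprime (α'.map ι) ((fk K f).map ι) := hc.map (mapRingHom ι)
  have hcr : IsCoprime (r ^ 2) ((fk K f).map ι) := by
    obtain ⟨q, hq⟩ := hr
    have h3 : r ^ 2 = α'.map ι + (fk K f).map ι * (-q) := by linear_combination -hq
    rw [h3]
    exact IsCoprime.add_mul_left_left hcL (-q)
  have hcr' : IsCoprime r ((fk K f).map ι) := (IsCoprime.pow_left_iff (by norm_num)).1 hcr
  obtain ⟨a, b, hab⟩ := hcr'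
  refine ⟨a, 1, ?_, ?_, ?_⟩
  · rw [hfO]
    exact ⟨r, b, by linear_combination hab⟩
  · rw [hfO]
    have h5 : oL O' (1 : O'[X]) = 1 := by simp [oL]
    rw [h5]
    obtain ⟨q, hq⟩ := hr
    refine ⟨q * a ^ 2 - b * (2 - b * (fk K f).map ι), ?_⟩
    have h6 : a * r = 1 - b * (fk K f).map ι := by linear_combination hab
    have h7 : α'.map ι * a ^ 2 - 1 = (fk K f).map ι * q * a ^ 2 + (a * r) ^ 2 - 1 := by
      linear_combination a ^ 2 * hq
    rw [h7, h6]
    ring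
  · have h8 : rd O' (1 : O'[X]) = 1 := by simp [rd]
    rw [h8]
    exact isCoprime_one_left

end Pool.PRK
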