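import Pool.Agent.H13.PRK.GDIK
import Pool.Agent.H13.PRK.STWK
import Pool.Agent.H13.PRK.LAWI
import Pool.Agent.H13.PRK.SHAI
import Pool.Agent.H13.PRK.FIPI
import Pool.Agent.H29.T1.All
import Pool.Agent.H32.PRL.SLC
import Pool.Agent.H32.PRL.FLP
import Pool.Agent.H77.PRL.BLC
import Pool.Agent.H25.PRL.IDN

/-!
# PRK, row MANI: the main statement on Selmer groups with two elements in the abstract setting
-/

set_option autoImplicit false

namespace Pool.PRK

open Polynomial Matrix Pool.HYP Pool.TOW Pool.AVS Pool.T1 IsDedekindDomain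

section Mon

variable {R : Type} [CommRing R] [IsDomain R] {K : Type} [Field K] [Algebra R K]
  {O : ValuationSubring K}

theorem lawI_mono {ε ε' : ℝ} (h : ε ≤ ε') {D : Dat R O} {P : HeightOneSpectrum R}
    {dS : Finset (HeightOneSpectrum R) → R} {f : R[X]} (hf : LawI K ε D P dS f) :
    LawI K ε' D P dS f := by
  refine le_trans (mul_le_mul_of_nonneg_right (by linarith) (Nat.cast_nonneg _)) hf

end Mon

open Classical in
theorem mani (hDNZ : DNZKStmt) (hALZ : ALZKStmt) (hEXZ : EXZKStmt) (hTWE : TWEKStmt)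
    (hZINJ : ZINJStmt) (hTAK : TAKStmt) (hSEL : SELKStmt) (hCMP : CMPKStmt) (hINO : INOKStmt)
    (R : Type) [CommRing R] [IsDedekindDomain R] (K : Type) [Field K] [Algebra R K]
    [IsFractionRing R K] (O : ValuationSubring K) (π : K) (H : GR R O π) (hOnly : Only R O)
    (hU : CntU R O π)
    (hL : ∃ c : ℕ, CntL R O π c) (hX : ∃ C : ℕ, CntX R O π C)
    (hun : ∀ n : ℕ, n ≠ 0 → (n : K) ≠ 0 → IsUnit (n : R))
    (hinf : ∀ A : Finset (HeightOneSpectrum R), ∃ P : HeightOneSpectrum R, P ∉ A)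
    (hfin : ∀ b : ℕ, {P : HeightOneSpectrum R | Nm P ≤ b}.Finite)
    (g : ℕ) (hg : 1 ≤ g) (hden : ∃ A : Finset (HeightOneSpectrum R), DenP O π g A)
    (hmlg : ∃ Ram : Finset (HeightOneSpectrum R), MlgP O π g Ram)
    (hav : ∀ T' : Finset (HeightOneSpectrum R), ∃ C b : ℕ, AvP O π g T' C b) :
    LawR1 R O π g fun h => (fun f : R[X] => fk K f) '' AllS R O π g h := by
  have : FaithfulSMul R K := inferInstance
  have fk_inj : Function.Injective fun f : R[X] => fk K f :=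
    map_injective _ (FaithfulSMul.algebraMap_injective R K)
  obtain ⟨A0, hden⟩ := hden
  obtain ⟨Ram, hmlg⟩ := hmlg
  obtain ⟨B, hB⟩ := Pool.T1.clsk R K O π H
  refine ⟨A0 ∪ (Ram ∪ B), fun T' hT' ε hε => ?_⟩
  obtain ⟨C, b0, hC⟩ := hav T'
  have hA0 : A0 ⊆ T' := Finset.subset_union_left.trans hT'
  have hRam : Ram ⊆ T' := (Finset.subset_union_left.trans Finset.subset_union_right).trans hT'
  have hBT : B ⊆ T' := (Finset.subset_union_right.trans Finset.subset_union_right).trans hT'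
  have hfinA : ∀ n, (All R O π g n).Finite := fun n =>
    (Pool.T1.allk R K O π H (fun m => (hU m).1) g n).1
  have hfinF : ∀ (D : Dat R O) (h : ℕ), D.Ok g → (Fam π g D h).Finite := fun D h _ =>
    (hfinA h).subset fun f hf => hf.1
  have htw : ∀ D : Dat R O, D.Ok g → D.T' = T' →
      ∃ E : ℕ, ∀ S ⊆ D.T, ∃ d ∈ Lm R O π (E : ℤ), Twi D.T D.T' S d := by
    intro D hD hT
    refine Pool.T1.dsk R K O π H B D.T' D.T ?_ hD.1 hB
    rw [hT]
    exact hBT
  have htwe : ∀ D : Dat R O, D.Ok g → D.T' = T' → ∀ y : HeightOneSpectrum R → Ty,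
      ∃ (d : R) (E : ℕ), TwE O π D y d E := by
    intro D hD hT y
    obtain ⟨E, hE⟩ := htw D hD hT
    obtain ⟨d, -, hd⟩ := hE (odd D.T y) (Finset.filter_subset _ _)
    obtain ⟨E', hE'⟩ := hTWE R K O π H Pool.T1.All.h_grd D y d hd
    exact ⟨d, E', hE'⟩
  have hε3 : 0 < ε / 2 := by positivity
  obtain ⟨k1, hk1⟩ := lawi gdik PRL.blc PRL.slc PRL.flp PRL.idn stwk hTAK hSEL hCMP hINO R K O π
    H hOnly g hg T' A0 Ram C b0 hC hden hA0 hmlg hRam hfinF htwe (ε / 2) hε3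
  refine ⟨2 * k1 + 2, fun k hk hk' => ⟨b0 + 2 * (2 * g + 1) * k, ?_, ?_⟩⟩
  · obtain ⟨D, h1, h2, h3, h4, h5⟩ := hEXZ R K O π H hinf hfin g T' k
      (b0 + 2 * (2 * g + 1) * k) hg
    refine ⟨D, h1, h2, h3, h4, fun hN => h5 (hun _ (by omega) hN)⟩
  intro D hD hDT hcard hb
  obtain ⟨j, hj⟩ : ∃ j : ℕ, k = 2 * j + 2 := by
    obtain ⟨i, hi⟩ := hk
    exact ⟨i - 1, by omega⟩
  have hb' : ∀ P ∈ D.T, b0 < Nm P ∧ 2 * (2 * g + 1) * D.T.card ≤ Nm P := by
    intro P hP
    have := hb P hP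
    rw [hcard]
    constructor <;> omega
  refine ⟨?_, fun P hP dS hdS E hE => ?_⟩
  · obtain ⟨E, hE⟩ := htw D hD hDT
    choose! dS hdS using hE
    exact ⟨dS, fun S hS => (hdS S hS).2⟩
  have hcT : D.T.card = 2 * j + 2 := hcard.trans hj
  have hce : (D.T.erase P).card = 2 * j + 1 := by
    rw [Finset.card_erase_of_mem hP, hcT]
    rfl
  obtain ⟨c, hc, h1, hh1⟩ := hDNZ hZINJ Pool.T1.famk Pool.T1.allk (Pool.T1.grow Pool.T1.allk)
    Pool.T1.twfk Pool.T1.irrk R K O π H hU hL hX g A0 D hg hden (by rw [hDT]; exact hA0) hD dS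
    hdS E hE
  obtain ⟨h2, hh2⟩ := hk1 D j hD hDT hcT (by omega) hb' P hP dS hdS
  -- the twists of this part are among all the twists
  have hZsub' : ∀ A : Set R[X], ZI K D P dS A ⊆ ZA K D dS A := by
    rintro A q ⟨f, hf, S, hS, rfl⟩
    refine ⟨f, hf, insert P S, ?_, rfl⟩
    rw [Fipi13.mem_Sl'] at hS ⊢
    have hPS : P ∉ S := fun h2 => (Finset.mem_erase.1 (hS.1 h2)).1 rfl
    refine ⟨Finset.insert_subset hP (hS.1.trans (Finset.erase_subset _ _)), ?_⟩
    rw [Finset.card_insert_of_notMem hPS]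
    omega
  have hSl1 : 0 < (Sl (D.T.erase P)).card := by
    obtain ⟨S, hS1, hS2⟩ := Finset.exists_subset_card_eq
      (show (D.T.erase P).card / 2 ≤ (D.T.erase P).card from Nat.div_le_self _ _)
    exact Finset.card_pos.2 ⟨S, Fipi13.mem_Sl'.2 ⟨hS1, Or.inl hS2⟩⟩
  have hSl : 0 < (Sl D.T).card := by
    obtain ⟨S, hS1, hS2⟩ := Finset.exists_subset_card_eq
      (show D.T.card / 2 ≤ D.T.card from Nat.div_le_self _ _)
    exact Finset.card_pos.2 ⟨S, Fipi13.mem_Sl'.2 ⟨hS1, Or.inl hS2⟩⟩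
  have hSlR : (0 : ℝ) < ((Sl D.T).card : ℝ) := by exact_mod_cast hSl
  -- density
  have hdens : ∀ (A : Set R[X]) (h : ℕ), A ⊆ Fam π g D h → A.Finite → ∀ N : ℝ,
      c * N ≤ (ZA K D dS A).ncard → c / (Sl D.T).card * N ≤ (ZI K D P dS A).ncard := by
    intro A h hA hAf N hN
    have e1 := ((hZINJ R K O π g D h hg hD dS hdS).2 A hA hAf).2
    have e2 := (Fipi13.zi_card (K := K) hZINJ hg hD hP hdS hA hAf).2
    rw [e1] at hN
    rw [e2, div_mul_eq_mul_div, div_le_iff₀ hSlR]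
    push_cast at hN ⊢
    have e3 : (1 : ℝ) ≤ ((Sl (D.T.erase P)).card : ℝ) := by exact_mod_cast hSl1
    have e4 : (0 : ℝ) ≤ ((Sl D.T).card : ℝ) * (A.ncard : ℝ) := by positivity
    nlinarith
  -- the general step
  have hstep : ∀ (h : ℕ) (A : Set R[X]) (Hs : Set K[X]), A ⊆ Fam π g D h → A.Nonempty →
      ({f | f ∈ A ∧ ¬ LawI K (ε / 2) D P dS f}.ncard : ℝ) ≤ ε / 2 * A.ncard →
      Hs.Finite → ZA K D dS A ⊆ Hs → c * Hs.ncard ≤ (ZA K D dS A).ncard →
      PosI P ε (c / (Sl D.T).card) (ZI K D P dS A) Hs := by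
    intro h A Hs hA hAn hlaw hHf hZ hcz
    have hAf : A.Finite := (hfinF D h hD).subset hA
    have hZf : (ZA K D dS A).Finite := hHf.subset hZ
    have hL3 := Fipi13.fipi (K := K) hZINJ hg hD hP hdS hε3 hA hAf hlaw
    have h3 : 2 * (ε / 2) = ε := by ring
    rw [h3] at hL3
    obtain ⟨f, hf⟩ := hAn
    obtain ⟨S, hS⟩ := Finset.card_pos.1 hSl
    have hpos : 0 < Hs.ncard := by
      rw [Set.ncard_pos hHf]
      exact ⟨_, hZ ⟨f, hf, S, hS, rfl⟩⟩
    exact ⟨(hZsub' A).trans hZ, hHf, hpos, hdens A h hA hAf _ hcz, hL3⟩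
  refine ⟨c / (Sl D.T).card, div_pos hc hSlR, max (max h1 h2) 1, fun h hh => ?_⟩
  have hh1' := hh1 h (le_trans (le_trans (le_max_left _ _) (le_max_left _ _)) hh)
  have hh2' := hh2 h (le_trans (le_trans (le_max_right _ _) (le_max_left _ _)) hh)
  have hh3' : 1 ≤ h := le_trans (le_max_right _ _) hh
  obtain ⟨hne, hAfin, hZsub, hZc⟩ := hh1'
  have hFS : FamS π g D h ⊆ Fam π g D h := fun f hf => hf.1
  have hncard : ((fun f : R[X] => fk K f) '' AllS R O π g (h + E)).ncard =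
      (AllS R O π g (h + E)).ncard := Set.ncard_image_of_injective _ fk_inj
  refine ⟨?_, ?_, ?_⟩
  · refine hstep h _ _ hFS hne hh2' (hAfin.image _) hZsub ?_
    rw [hncard]
    exact hZc
  · have hFf : (FamS π g D h).Finite := (hfinF D h hD).subset hFS
    have hle : ({f | f ∈ FamS π g D h ∧ ¬ LawI K ε D P dS f}.ncard : ℝ) ≤
        ({f | f ∈ FamS π g D h ∧ ¬ LawI K (ε / 2) D P dS f}.ncard : ℝ) := by
      have hsub : {f | f ∈ FamS π g D h ∧ ¬ LawI K ε D P dS f} ⊆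
          {f | f ∈ FamS π g D h ∧ ¬ LawI K (ε / 2) D P dS f} := by
        rintro f ⟨hf1, hf2⟩
        exact ⟨hf1, fun hf3 => hf2 (lawI_mono (by linarith) hf3)⟩
      exact_mod_cast Set.ncard_le_ncard hsub (hFf.subset fun q hq => hq.1)
    refine hle.trans (hh2'.trans ?_)
    refine mul_le_mul_of_nonneg_right (by linarith) (by positivity)
  · intro hN hTr
    have hunit : IsUnit ((2 * g + 1 : ℕ) : R) := hun _ (by omega) hN
    obtain ⟨n, hn0, hnL, hn1, hn2⟩ := shai R K O π H hU g D hTr hunit h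
    set A1 : Set R[X] := {f | f ∈ FamS π g D h ∧ f.coeff (2 * g) = 0} with hA1
    have hA1F : A1 ⊆ Fam π g D h := fun f hf => hf.1.1
    have hA1f : A1.Finite := (hfinF D h hD).subset hA1F
    have hFf : (FamS π g D h).Finite := (hfinF D h hD).subset hFS
    have hFpos : 0 < (FamS π g D h).ncard := (Set.ncard_pos hFf).2 hne
    have hA1pos : 0 < A1.ncard := by
      rcases Nat.eq_zero_or_pos A1.ncard with h0 | h0
      · rw [hn1, h0] at hFpos
        omega
      · exact h0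
    have hA1n : A1.Nonempty := (Set.ncard_pos hA1f).1 hA1pos
    have hlaw1 : ({f | f ∈ A1 ∧ ¬ LawI K (ε / 2) D P dS f}.ncard : ℝ) ≤
        ε / 2 * A1.ncard := by
      have e1 := hn2 (ε / 2) P dS
      have e2 := hh2'
      rw [e1, hn1] at e2
      push_cast at e2
      have hn0' : (0 : ℝ) < n := by exact_mod_cast hn0
      have e3 : (n : ℝ) * ({f | f ∈ A1 ∧ ¬ LawI K (ε / 2) D P dS f}.ncard : ℝ) ≤
          n * (ε / 2 * A1.ncard) := by
        calc (n : ℝ) * ({f | f ∈ A1 ∧ ¬ LawI K (ε / 2) D P dS f}.ncard : ℝ) ≤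
            ε / 2 * (n * (A1.ncard : ℝ)) := e2
          _ = n * (ε / 2 * A1.ncard) := by ring
      exact le_of_mul_le_mul_left e3 hn0'
    have hc2 : ∀ q : R[X], (fk K q).coeff (2 * g) = 0 ↔ q.coeff (2 * g) = 0 := by
      intro q
      rw [coeff_map, map_eq_zero_iff _ (FaithfulSMul.algebraMap_injective R K)]
    have hHeq : {f | f ∈ (fun f : R[X] => fk K f) '' AllS R O π g (h + E) ∧
        f.coeff (2 * g) = 0} = (fun f : R[X] => fk K f) ''
          {f | f ∈ AllS R O π g (h + E) ∧ f.coeff (2 * g) = 0} := by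
      ext q
      constructor
      · rintro ⟨⟨f, hf, rfl⟩, hq⟩
        exact ⟨f, ⟨hf, (hc2 f).1 hq⟩, rfl⟩
      · rintro ⟨f, ⟨hf, hf2⟩, rfl⟩
        exact ⟨⟨f, hf, rfl⟩, (hc2 f).2 hf2⟩
    have hHfin : {f | f ∈ (fun f : R[X] => fk K f) '' AllS R O π g (h + E) ∧
        f.coeff (2 * g) = 0}.Finite := (hAfin.image _).subset fun q hq => hq.1
    refine hstep h A1 _ hA1F hA1n hlaw1 hHfin ?_ ?_
    · rintro q ⟨f, hf, S, hS, rfl⟩
      refine ⟨hZsub ⟨f, hf.1, S, hS, rfl⟩, (hc2 _).2 ?_⟩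
      rw [coeff_scaleRoots, hf.2, zero_mul]
    · -- density
      rw [hHeq, Set.ncard_image_of_injective _ fk_inj]
      have hZ1 := ((hZINJ R K O π g D h hg hD dS hdS).2 A1 hA1F hA1f).2
      have hZ2 := ((hZINJ R K O π g D h hg hD dS hdS).2 (FamS π g D h) hFS hFf).2
      have hAL := hALZ R K O π H hU g hg hunit (h + E)
      have hLmono : (Lm R O π (h : ℤ)).ncard ≤ (Lm R O π ((h + E : ℕ) : ℤ)).ncard := by
        refine Set.ncard_le_ncard ?_ (hU _).1
        intro a ha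
        have h5 : algebraMap R K a * π ^ ((h + E : ℕ) : ℤ) =
            algebraMap R K a * π ^ (h : ℤ) * π ^ E := by
          rw [zpow_natCast, zpow_natCast, pow_add]
          ring
        change algebraMap R K a * π ^ ((h + E : ℕ) : ℤ) ∈ O
        rw [h5]
        exact O.mul_mem _ _ ha (O.toSubring.pow_mem H.pi_mem E)
      set L : ℕ := (Lm R O π ((h + E : ℕ) : ℤ)).ncard with hLdef
      set A2 : ℕ := {f | f ∈ AllS R O π g (h + E) ∧ f.coeff (2 * g) = 0}.ncard with hA2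
      have hL0 : 0 < L := lt_of_lt_of_le (lt_of_lt_of_le hn0 hnL) hLmono
      have e1 : c * ((L * A2 : ℕ) : ℝ) ≤ (L : ℝ) * (ZA K D dS A1).ncard := by
        rw [← hAL]
        refine hZc.trans ?_
        rw [hZ2, hn1]
        have e2 : (Sl D.T).card * (n * A1.ncard) = n * (ZA K D dS A1).ncard := by
          rw [hZ1]
          ring
        rw [e2]
        push_cast
        refine mul_le_mul_of_nonneg_right ?_ (by positivity)
        exact_mod_cast hnL.trans hLmono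
      have hL0' : (0 : ℝ) < L := by exact_mod_cast hL0
      have e3 : (L : ℝ) * (c * A2) ≤ (L : ℝ) * (ZA K D dS A1).ncard := by
        calc (L : ℝ) * (c * A2) = c * ((L * A2 : ℕ) : ℝ) := by push_cast; ring
          _ ≤ _ := e1
      exact le_of_mul_le_mul_left e3 hL0'

end Pool.PRK
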