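import Pool.Agent.H48.RN.Asm
import Pool.Agent.H10.RN.PAR
import Pool.Agent.H45.RN.BDC
import Pool.Agent.H45.RN.CRD
import Pool.Agent.H45.RN.DIS
import Pool.Agent.H4.RN.PRC

/-!
# PRK: Dirichlet's theorem for polynomials over a finite field

From the Riemann hypothesis `a_RHB` of project RN: every residue class of units modulo `M` contains a
monic irreducible polynomial of every large degree.
-/

set_option autoImplicit false
set_option linter.unusedSectionVars false

namespace Pool.PRK.Dir13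

open Polynomial Pool.RN

variable {F : Type} [Field F] [Fintype F]

/-- The weighted number of prime powers. -/
theorem sum_irr (j : ℕ) (hj : 1 ≤ j) :
    ∑ d ∈ j.divisors, d * (Irr F d).card = Fintype.card F ^ j :=
  s_PRC F (s_CRD F) (s_LGB F) j hj

/-- The number of irreducible polynomials of degree `d`. -/
theorem irr_le (d : ℕ) (hd : 1 ≤ d) : d * (Irr F d).card ≤ Fintype.card F ^ d := by
  rw [← sum_irr d hd]
  exact Finset.single_le_sum (f := fun d => d * (Irr F d).card) (fun _ _ => Nat.zero_le _)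
    (Nat.mem_divisors_self d (by omega))

/-- Sums over the proper divisors are small. -/
theorem sum_proper (j : ℕ) (hj : 1 ≤ j) :
    ∑ d ∈ j.properDivisors, d * (Irr F d).card ≤ 2 * Fintype.card F ^ (j / 2) := by
  have hq : 2 ≤ Fintype.card F := Fintype.one_lt_card
  have h1 : ∑ d ∈ j.properDivisors, d * (Irr F d).card ≤
      ∑ d ∈ Finset.range (j / 2 + 1), Fintype.card F ^ d := by
    refine (Finset.sum_le_sum (g := fun d => Fintype.card F ^ d) fun d hd => ?_).trans
      (Finset.sum_le_sum_of_subset fun d hd => ?_)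
    · exact irr_le d (Nat.pos_of_mem_properDivisors hd)
    · rw [Nat.mem_properDivisors] at hd
      obtain ⟨⟨c, hc⟩, hlt⟩ := hd
      rw [Finset.mem_range]
      have hc2 : 2 ≤ c := by
        by_contra hcon
        interval_cases c <;> omega
      have : d * 2 ≤ j := by rw [hc]; exact Nat.mul_le_mul_left d hc2
      omega
  refine h1.trans ?_
  have h2 : ∀ n : ℕ, ∑ d ∈ Finset.range (n + 1), Fintype.card F ^ d ≤ 2 * Fintype.card F ^ n := by
    intro n
    induction n with
    | zero => simp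
    | succ n ih =>
      rw [Finset.sum_range_succ]
      have : 2 * Fintype.card F ^ n ≤ Fintype.card F ^ (n + 1) := by
        rw [pow_succ, mul_comm]
        exact Nat.mul_le_mul_left _ hq
      omega
  exact h2 _

open Classical in
/-- The monic irreducible divisors of `M`: total degree at most the degree. -/
theorem sum_dvd (M : F[X]) (hM : M.Monic) (j : ℕ) :
    ∑ d ∈ j.divisors, d * ((Irr F d).filter (fun P => P ∣ M)).card ≤ M.natDegree := by
  classical
  set A : Finset F[X] := j.divisors.biUnion (fun d => (Irr F d).filter (fun P => P ∣ M)) with hA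
  have hirr : ∀ P ∈ A, (P.Monic ∧ Irreducible P) ∧ P ∣ M := by
    intro P hP
    rw [hA, Finset.mem_biUnion] at hP
    obtain ⟨d, _, hd⟩ := hP
    rw [Finset.mem_filter, mem_Irr] at hd
    exact ⟨⟨hd.1.1.1, hd.1.2⟩, hd.2⟩
  have hprod : (∏ P ∈ A, P) ∣ M := by
    refine Finset.prod_dvd_of_coprime ?_ (fun P hP => (hirr P hP).2)
    intro P hP Q hQ hPQ
    have h1 := hirr P hP
    have h2 := hirr Q hQ
    refine (Irreducible.coprime_iff_not_dvd h1.1.2).2 fun hdv => hPQ ?_
    exact eq_of_monic_of_associated h1.1.1 h2.1.1 (h1.1.2.associated_of_dvd h2.1.2 hdv)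
  have hdeg : (∏ P ∈ A, P).natDegree ≤ M.natDegree := natDegree_le_of_dvd hprod hM.ne_zero
  have hdeg2 : (∏ P ∈ A, P).natDegree = ∑ P ∈ A, P.natDegree :=
    natDegree_prod_of_monic _ _ (fun P hP => (hirr P hP).1.1)
  have hdis : ((j.divisors : Set ℕ)).PairwiseDisjoint
      (fun d => (Irr F d).filter (fun P => P ∣ M)) := by
    intro a _ b _ hab
    rw [Function.onFun, Finset.disjoint_left]
    intro P hPa hPb
    rw [Finset.mem_filter, mem_Irr] at hPa hPb
    exact hab (hPa.1.1.2.symm.trans hPb.1.1.2)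
  rw [hdeg2, hA, Finset.sum_biUnion hdis] at hdeg
  refine le_trans (le_of_eq ?_) hdeg
  refine Finset.sum_congr rfl fun d _ => ?_
  have h5 : ∀ P ∈ (Irr F d).filter (fun P => P ∣ M), P.natDegree = d := by
    intro P hP
    rw [Finset.mem_filter, mem_Irr] at hP
    exact hP.1.1.2
  rw [Finset.sum_congr rfl h5, Finset.sum_const, smul_eq_mul, mul_comm]

/-- The trivial character. -/
theorem aa_one (M : F[X]) (hM : M.Monic) (j : ℕ) (hj : 1 ≤ j) :
    ((Fintype.card F : ℝ) ^ j - M.natDegree) ≤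
      (aa (dir (1 : MulChar (AdjoinRoot M) ℂ)) j).re := by
  classical
  have hval : ∀ P : F[X], Irreducible P → ∀ n : ℕ, 1 ≤ n →
      dir (1 : MulChar (AdjoinRoot M) ℂ) P ^ n = if P ∣ M then 0 else 1 := by
    intro P hP n hn
    split_ifs with h
    · have hnu : ¬ IsUnit (AdjoinRoot.mk M P) := by
        intro hu
        by_cases hd : M.natDegree = 0
        · have hM1 : M = 1 := hM.natDegree_eq_zero.1 hd
          rw [hM1] at h
          exact hP.not_isUnit (isUnit_of_dvd_one h)
        · obtain ⟨b, hb⟩ := hu.exists_right_inv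
          obtain ⟨B, rfl⟩ := AdjoinRoot.mk_surjective b
          rw [← map_mul, ← map_one (AdjoinRoot.mk M), AdjoinRoot.mk_eq_mk] at hb
          have h2 : P ∣ 1 := by
            have h3 : P ∣ P * B - 1 := h.trans hb
            have h4 : P ∣ P * B := dvd_mul_right _ _
            have := dvd_sub h4 h3
            simpa using this
          exact hP.not_isUnit (isUnit_of_dvd_one h2)
      rw [dir, MulChar.map_nonunit _ hnu, zero_pow (by omega)]
    · have hu : IsUnit (AdjoinRoot.mk M P) := by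
        have hc : IsCoprime P M := (Irreducible.coprime_iff_not_dvd hP).2 h
        obtain ⟨a, b, hab⟩ := hc
        refine IsUnit.of_mul_eq_one (AdjoinRoot.mk M a) ?_
        rw [← map_mul, ← map_one (AdjoinRoot.mk M), AdjoinRoot.mk_eq_mk]
        refine ⟨-b, ?_⟩
        linear_combination hab
      rw [dir, MulChar.one_apply hu, one_pow]
  have h1 : aa (dir (1 : MulChar (AdjoinRoot M) ℂ)) j =
      (((∑ d ∈ j.divisors, d * ((Irr F d).filter (fun P => ¬ P ∣ M)).card : ℕ) : ℝ) : ℂ) := by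
    rw [aa]
    push_cast
    refine Finset.sum_congr rfl fun d hd => ?_
    have hd1 : 1 ≤ j / d := Nat.div_pos (Nat.divisor_le hd) (Nat.pos_of_mem_divisors hd)
    rw [Finset.sum_congr rfl (fun P hP => by
      rw [hval P (mem_Irr.1 hP).2 _ hd1] : ∀ P ∈ Irr F d,
        (d : ℂ) * dir (1 : MulChar (AdjoinRoot M) ℂ) P ^ (j / d) =
          (d : ℂ) * (if P ∣ M then 0 else 1))]
    rw [← Finset.mul_sum]
    congr 1
    rw [Finset.card_filter]
    push_cast
    refine Finset.sum_congr rfl fun P _ => ?_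
    by_cases h : P ∣ M
    · simp [h]
    · simp [h]
  rw [h1, Complex.ofReal_re]
  have h2 : ∑ d ∈ j.divisors, d * ((Irr F d).filter (fun P => ¬ P ∣ M)).card +
      ∑ d ∈ j.divisors, d * ((Irr F d).filter (fun P => P ∣ M)).card = Fintype.card F ^ j := by
    rw [← sum_irr j hj, ← Finset.sum_add_distrib]
    refine Finset.sum_congr rfl fun d _ => ?_
    rw [← mul_add]
    congr 1
    have := Finset.card_filter_add_card_filter_not (s := Irr F d) (fun P => P ∣ M)
    omega
  have h3 := sum_dvd M hM j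
  have h4 : (Fintype.card F : ℝ) ^ j = ((∑ d ∈ j.divisors,
      d * ((Irr F d).filter (fun P => ¬ P ∣ M)).card : ℕ) : ℝ) +
      ((∑ d ∈ j.divisors, d * ((Irr F d).filter (fun P => P ∣ M)).card : ℕ) : ℝ) := by
    rw [← Nat.cast_add, h2]
    push_cast
    rfl
  have h5 : ((∑ d ∈ j.divisors, d * ((Irr F d).filter (fun P => P ∣ M)).card : ℕ) : ℝ) ≤
      M.natDegree := by exact_mod_cast h3
  linarith

open Classical in
/-- The number of prime powers in a residue class. -/
theorem cls (M : F[X]) (hM : M.Monic) (hd : 1 ≤ M.natDegree) (a : AdjoinRoot M) (ha : IsUnit a) :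
    ∃ φ : ℕ, ∀ j : ℕ, 1 ≤ j → (∀ P ∈ Irr F j, AdjoinRoot.mk M P ≠ a) →
      (Fintype.card F : ℝ) ^ j - M.natDegree ≤
      (φ : ℝ) * (M.natDegree * Real.sqrt (Fintype.card F) ^ j) +
        φ * (2 * (Fintype.card F : ℝ) ^ (j / 2)) := by
  have := (s_DIS F (s_CRD F) M hM.ne_zero).1
  let _ : Fintype (AdjoinRoot M) := Fintype.ofFinite _
  let _ : Fintype (MulChar (AdjoinRoot M) ℂ) := Fintype.ofFinite _
  refine ⟨Fintype.card (MulChar (AdjoinRoot M) ℂ), fun j hj hno => ?_⟩
  set N : ℕ := Fintype.card (MulChar (AdjoinRoot M) ℂ) with hN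
  have hb : ∀ ψ : MulChar (AdjoinRoot M) ℂ, ‖star (ψ a)‖ ≤ 1 := by
    intro ψ
    obtain ⟨A, rfl⟩ := AdjoinRoot.mk_surjective a
    rw [norm_star]
    exact s_BDC F (s_DIS F (s_CRD F)) M hM.ne_zero ψ A
  -- the sum over the characters
  have h1 : ∑ ψ : MulChar (AdjoinRoot M) ℂ, aa (dir ψ) j * star (ψ a) =
      ∑ d ∈ j.divisors, ∑ P ∈ Irr F d,
        (d : ℂ) * (if AdjoinRoot.mk M P ^ (j / d) = a then (N : ℂ) else 0) := by
    simp only [aa, Finset.sum_mul]
    rw [Finset.sum_comm]
    refine Finset.sum_congr rfl fun d _ => ?_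
    rw [Finset.sum_comm]
    refine Finset.sum_congr rfl fun P _ => ?_
    rw [← PAR_orth ha (AdjoinRoot.mk M P ^ (j / d)), Finset.mul_sum]
    refine Finset.sum_congr rfl fun ψ _ => ?_
    rw [dir, map_pow, mul_assoc]
  have h2 : ‖∑ ψ : MulChar (AdjoinRoot M) ℂ, aa (dir ψ) j * star (ψ a)‖ ≤
      (N : ℝ) * (2 * (Fintype.card F : ℝ) ^ (j / 2)) := by
    rw [h1, ← Nat.insert_self_properDivisors (by omega : j ≠ 0),
      Finset.sum_insert Nat.self_notMem_properDivisors]
    have h3 : ∑ P ∈ Irr F j,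
        (j : ℂ) * (if AdjoinRoot.mk M P ^ (j / j) = a then (N : ℂ) else 0) = 0 := by
      refine Finset.sum_eq_zero fun P hP => ?_
      rw [Nat.div_self (by omega), pow_one, if_neg (hno P hP), mul_zero]
    rw [h3, zero_add]
    have h4 : ‖∑ d ∈ j.properDivisors, ∑ P ∈ Irr F d,
        (d : ℂ) * (if AdjoinRoot.mk M P ^ (j / d) = a then (N : ℂ) else 0)‖ ≤
        ∑ d ∈ j.properDivisors, ∑ P ∈ Irr F d, (d : ℝ) * N := by
      refine (norm_sum_le _ _).trans (Finset.sum_le_sum fun d _ => (norm_sum_le _ _).trans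
        (Finset.sum_le_sum fun P _ => ?_))
      rw [norm_mul, Complex.norm_natCast]
      refine mul_le_mul_of_nonneg_left ?_ (Nat.cast_nonneg d)
      split_ifs
      · rw [Complex.norm_natCast]
      · rw [norm_zero]; exact Nat.cast_nonneg N
    refine h4.trans ?_
    have h5 : ∑ d ∈ j.properDivisors, ∑ P ∈ Irr F d, (d : ℝ) * N =
        (N : ℝ) * ((∑ d ∈ j.properDivisors, d * (Irr F d).card : ℕ) : ℝ) := by
      push_cast
      rw [Finset.mul_sum]
      refine Finset.sum_congr rfl fun d _ => ?_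
      rw [Finset.sum_const, nsmul_eq_mul]
      ring
    rw [h5]
    refine mul_le_mul_of_nonneg_left ?_ (Nat.cast_nonneg N)
    have := sum_proper (F := F) j hj
    exact_mod_cast this
  have h6 : ∑ ψ : MulChar (AdjoinRoot M) ℂ, aa (dir ψ) j * star (ψ a) =
      aa (dir (1 : MulChar (AdjoinRoot M) ℂ)) j +
        ∑ ψ ∈ Finset.univ.erase (1 : MulChar (AdjoinRoot M) ℂ), aa (dir ψ) j * star (ψ a) := by
    rw [← Finset.add_sum_erase Finset.univ _ (Finset.mem_univ (1 : MulChar (AdjoinRoot M) ℂ)),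
      MulChar.one_apply ha, star_one, mul_one]
  have h7 : ‖∑ ψ ∈ Finset.univ.erase (1 : MulChar (AdjoinRoot M) ℂ),
      aa (dir ψ) j * star (ψ a)‖ ≤
      (N : ℝ) * (M.natDegree * Real.sqrt (Fintype.card F) ^ j) := by
    refine (norm_sum_le _ _).trans ?_
    have h8 : ∀ ψ ∈ Finset.univ.erase (1 : MulChar (AdjoinRoot M) ℂ),
        ‖aa (dir ψ) j * star (ψ a)‖ ≤ M.natDegree * Real.sqrt (Fintype.card F) ^ j := by
      intro ψ hψ
      rw [norm_mul]
      refine (mul_le_of_le_one_right (norm_nonneg _) (hb ψ)).trans ?_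
      exact a_RHB F M hM hd ψ (Finset.ne_of_mem_erase hψ) j hj
    refine (Finset.sum_le_sum h8).trans ?_
    rw [Finset.sum_const, nsmul_eq_mul]
    refine mul_le_mul_of_nonneg_right ?_ (by positivity)
    have : (Finset.univ.erase (1 : MulChar (AdjoinRoot M) ℂ)).card ≤ N :=
      (Finset.card_le_card (Finset.erase_subset _ _)).trans (le_of_eq Finset.card_univ)
    exact_mod_cast this
  have h9 : ‖aa (dir (1 : MulChar (AdjoinRoot M) ℂ)) j‖ ≤
      (N : ℝ) * (2 * (Fintype.card F : ℝ) ^ (j / 2)) +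
        (N : ℝ) * (M.natDegree * Real.sqrt (Fintype.card F) ^ j) := by
    have h10 : aa (dir (1 : MulChar (AdjoinRoot M) ℂ)) j =
        ∑ ψ : MulChar (AdjoinRoot M) ℂ, aa (dir ψ) j * star (ψ a) -
        ∑ ψ ∈ Finset.univ.erase (1 : MulChar (AdjoinRoot M) ℂ), aa (dir ψ) j * star (ψ a) := by
      rw [h6]; ring
    rw [h10]
    exact (norm_sub_le _ _).trans (add_le_add h2 h7)
  have h11 := aa_one M hM j hj
  have h12 := Complex.re_le_norm (aa (dir (1 : MulChar (AdjoinRoot M) ℂ)) j)
  linarith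

/-- Dirichlet's theorem: every residue class of units modulo `M` contains a monic irreducible
polynomial of every large degree. -/
theorem dirichlet (M : F[X]) (hM : M.Monic) (hd : 1 ≤ M.natDegree) (a : AdjoinRoot M)
    (ha : IsUnit a) : ∃ j₀ : ℕ, ∀ j : ℕ, j₀ ≤ j → ∃ P : F[X], P.Monic ∧ P.natDegree = j ∧
      Irreducible P ∧ AdjoinRoot.mk M P = a := by
  obtain ⟨φ, hφ⟩ := cls M hM hd a ha
  set s : ℝ := Real.sqrt (Fintype.card F) with hs
  have hq : (2 : ℝ) ≤ Fintype.card F := by exact_mod_cast (Fintype.one_lt_card : 1 < Fintype.card F)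
  have hs1 : 1 < s := by
    rw [hs]
    exact Real.lt_sqrt_of_sq_lt (by linarith)
  have hs0 : 0 < s := by linarith
  obtain ⟨j₀, hj₀⟩ := pow_unbounded_of_one_lt
    ((φ : ℝ) * (M.natDegree + 2) + M.natDegree + 1) hs1
  refine ⟨j₀ + 1, fun j hj => ?_⟩
  by_contra hcon
  have hno : ∀ P ∈ Irr F j, AdjoinRoot.mk M P ≠ a := by
    intro P hP h
    rw [mem_Irr] at hP
    exact hcon ⟨P, hP.1.1, hP.1.2, hP.2, h⟩
  have h1 := hφ j (by omega) hno
  have hss : s ^ 2 = Fintype.card F := by
    rw [hs]; exact Real.sq_sqrt (by linarith)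
  have h2 : (Fintype.card F : ℝ) ^ j = s ^ j * s ^ j := by
    rw [← hss, ← pow_mul, ← pow_add]
    congr 1
    ring
  have h3 : (Fintype.card F : ℝ) ^ (j / 2) ≤ s ^ j := by
    rw [← hss, ← pow_mul]
    exact pow_le_pow_right₀ hs1.le (by omega)
  have h4 : (φ : ℝ) * (M.natDegree + 2) + M.natDegree + 1 < s ^ j :=
    hj₀.trans_le (pow_le_pow_right₀ hs1.le (by omega))
  have hφ0 : (0 : ℝ) ≤ φ := Nat.cast_nonneg φ
  have hD0 : (0 : ℝ) ≤ M.natDegree := Nat.cast_nonneg _
  have h5 : (φ : ℝ) * (2 * (Fintype.card F : ℝ) ^ (j / 2)) ≤ φ * (2 * s ^ j) :=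
    mul_le_mul_of_nonneg_left (by linarith) hφ0
  rw [h2] at h1
  have h6 : 0 < s ^ j := by positivity
  have h7 : s ^ j * (s ^ j - φ * (M.natDegree + 2)) ≤ M.natDegree := by nlinarith
  have h8 : (M.natDegree : ℝ) + 1 < s ^ j - φ * (M.natDegree + 2) := by linarith
  have h9 : 1 < s ^ j := by nlinarith
  nlinarith

end Pool.PRK.Dir13
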