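import Pool.Agent.H13.PRK.Dir
import Pool.Agent.H85.HYP.NRC
import Pool.Agent.H14.T1.BKD

/-!
# PRK: classes of square norm over a finite field (FFA, FFB)
-/

set_option autoImplicit false

namespace Pool.PRK.FF13

open Polynomial Pool.HYP

/-- The norm of `kap u` from `K[x]/(f)` is the norm of `f` from `K[x]/(u)`. -/
theorem norm_kap {K : Type} [Field K] {f u : K[X]} (hf : f.Monic) (hu : u.Monic) :
    Algebra.norm K (AdjoinRoot.mk f (kap u)) = Algebra.norm K (AdjoinRoot.mk u f) := by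
  rw [norm_eq_resultant hu f, resultant_comm, ← norm_eq_resultant hf u, kap,
    map_mul, map_mul, map_pow, map_neg, map_one]
  congr 1
  have h2 : ((-1 : AdjoinRoot f)) ^ u.natDegree = algebraMap K (AdjoinRoot f) ((-1) ^ u.natDegree) := by
    rw [map_pow, map_neg, map_one]
  rw [h2, Algebra.norm_algebraMap]
  have h3 : Module.finrank K (AdjoinRoot f) = f.natDegree := by
    rw [(AdjoinRoot.powerBasis' hf).finrank, AdjoinRoot.powerBasis'_dim]
  rw [h3, pow_mul]

theorem coprime_of_mk {K : Type} [Field K] {f p q : K[X]} (hp : IsCoprime p f) (h : f ∣ q - p) :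
    IsCoprime q f := by
  obtain ⟨r, hr⟩ := h
  have : q = p + r * f := by linear_combination hr
  rw [this]
  exact IsCoprime.add_mul_right_left hp r

/-- FFA. -/
theorem ffa (k : Type) [Field k] [Finite k] (_h2 : (2 : k) ≠ 0) (f p : k[X]) (hf : f.Monic)
    (ho : Odd f.natDegree) (hp : IsCoprime p f) (hn : NSq f p) :
    ∃ u v : k[X], u.Monic ∧ IsCoprime u f ∧ IsCoprime v f ∧
      f ∣ kap u * v ^ 2 - p ∧ ∀ Q : k[X], Q.Monic → Irreducible Q → Q ∣ u → NSq f (kap Q) := by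
  have := Fintype.ofFinite k
  have hd : 1 ≤ f.natDegree := ho.pos
  have hu : IsUnit (AdjoinRoot.mk f p) := by
    obtain ⟨a, b, hab⟩ := hp
    refine IsUnit.of_mul_eq_one (AdjoinRoot.mk f a) ?_
    rw [← map_mul, ← map_one (AdjoinRoot.mk f), AdjoinRoot.mk_eq_mk]
    exact ⟨-b, by linear_combination hab⟩
  obtain ⟨j, hj⟩ := Dir13.dirichlet f hf hd _ hu
  obtain ⟨P, hPm, hPd, hPi, hPa⟩ := hj (2 * j) (by omega)
  have hk : kap P = P := by
    rw [kap, hPd, pow_mul]
    norm_num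
  have hdv : f ∣ P - p := by
    rw [← AdjoinRoot.mk_eq_mk]
    exact hPa
  refine ⟨P, 1, hPm, coprime_of_mk hp hdv, isCoprime_one_left, ?_, ?_⟩
  · rw [hk]
    simpa using hdv
  · intro Q hQm hQi hQd
    have hQP : Q = P := eq_of_monic_of_associated hQm hPm (hQi.associated_of_dvd hPi hQd)
    rw [hQP, hk, NSq, hPa]
    exact hn

/-- Modulo one prime. -/
theorem sq_prime (k : Type) [Field k] [Finite k] (h2 : (2 : k) ≠ 0) (f Q : k[X]) (hf : f.Monic)
    (hc : IsCoprime Q f) (hQ : Q.Monic) (hi : Irreducible Q) (hn : NSq f (kap Q)) :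
    ∃ w : k[X], Q ∣ w ^ 2 - f := by
  have : Fact (Irreducible Q) := ⟨hi⟩
  have : Module.Finite k (AdjoinRoot Q) := (AdjoinRoot.powerBasis' hQ).finite
  have : Finite (AdjoinRoot Q) := Module.finite_of_finite k
  have h0 : AdjoinRoot.mk Q f ≠ 0 := by
    rw [Ne, AdjoinRoot.mk_eq_zero]
    intro hd
    have : IsUnit Q := hc.isUnit_of_dvd' dvd_rfl hd
    exact hi.not_isUnit this
  rw [NSq, norm_kap hf hQ] at hn
  have h3 := (Pool.T1.BKDp.fsq.2 k (AdjoinRoot Q) h2 _ h0).1 hn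
  obtain ⟨r, hr⟩ := h3
  obtain ⟨w, rfl⟩ := AdjoinRoot.mk_surjective r
  refine ⟨w, ?_⟩
  rw [← map_mul, AdjoinRoot.mk_eq_mk] at hr
  have : w ^ 2 - f = -(f - w * w) := by ring
  rw [this]
  exact (dvd_neg).2 hr

/-- Modulo a power of a prime. -/
theorem sq_pow (k : Type) [Field k] (h2 : (2 : k) ≠ 0) (f Q : k[X])
    (hc : IsCoprime Q f) (h : ∃ w : k[X], Q ∣ w ^ 2 - f) (n : ℕ) :
    ∃ w : k[X], Q ^ (n + 1) ∣ w ^ 2 - f := by
  induction n with
  | zero => simpa using h
  | succ n ih =>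
    obtain ⟨w, r, hr⟩ := ih
    have hcw : IsCoprime Q (w ^ 2) := by
      have : w ^ 2 = f + Q ^ (n + 1) * r := by linear_combination hr
      rw [this, pow_succ, mul_comm (Q ^ n) Q, mul_assoc]
      exact IsCoprime.add_mul_left_right hc _
    have hcw1 : IsCoprime Q w := by
      rw [pow_two] at hcw
      exact (IsCoprime.mul_right_iff.1 hcw).1
    have hc2 : IsCoprime Q (2 * w) := by
      refine IsCoprime.mul_right ?_ hcw1
      have : IsUnit (2 : k[X]) := by
        have h3 : (2 : k[X]) = C (2 : k) := (map_ofNat C 2).symm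
        rw [h3]
        exact isUnit_C.2 (isUnit_iff_ne_zero.2 h2)
      obtain ⟨c, hc'⟩ := this.exists_left_inv
      exact ⟨0, c, by rw [zero_mul, zero_add]; exact hc'⟩
    obtain ⟨a, b, hab⟩ := hc2
    refine ⟨w - Q ^ (n + 1) * (b * r), a * r + Q ^ n * (b * r) ^ 2, ?_⟩
    have e1 : (w - Q ^ (n + 1) * (b * r)) ^ 2 - f =
        (w ^ 2 - f) - Q ^ (n + 1) * (b * (2 * w)) * r + Q ^ (n + 1) * Q ^ (n + 1) * (b * r) ^ 2 := by
      ring
    have e2 : b * (2 * w) = 1 - a * Q := by linear_combination hab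
    rw [e1, hr, e2]
    ring

theorem isCoprime_of_dvd {k : Type} [Field k] {a b c : k[X]} (h : IsCoprime a c) (hd : b ∣ a) :
    IsCoprime b c := IsCoprime.of_isCoprime_of_dvd_left h hd

/-- FFB. -/
theorem ffb (k : Type) [Field k] [Finite k] (h2 : (2 : k) ≠ 0) (f u : k[X]) (hf : f.Monic)
    (_ho : Odd f.natDegree) (hu : u.Monic) (hc : IsCoprime u f)
    (hq : ∀ Q : k[X], Q.Monic → Irreducible Q → Q ∣ u → NSq f (kap Q)) :
    ∃ w : k[X], u ∣ w ^ 2 - f := by
  have key : ∀ u : k[X], u ≠ 0 → IsCoprime u f →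
      (∀ Q : k[X], Q.Monic → Irreducible Q → Q ∣ u → NSq f (kap Q)) →
      ∃ w : k[X], u ∣ w ^ 2 - f := by
    intro u
    induction u using UniqueFactorizationMonoid.induction_on_coprime with
    | h0 => intro h; exact absurd rfl h
    | h1 h => intro _ _ _; exact ⟨0, h.dvd⟩
    | hpr i hp =>
      rename_i Q
      intro _ hc hq
      rcases Nat.eq_zero_or_pos i with hi | hi
      · subst hi
        exact ⟨0, by simp⟩
      · obtain ⟨n, rfl⟩ : ∃ n, i = n + 1 := ⟨i - 1, by omega⟩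
        have hQ0 : Q ≠ 0 := hp.ne_zero
        have hl : IsUnit (C Q.leadingCoeff⁻¹) :=
          isUnit_C.2 (isUnit_iff_ne_zero.2 (inv_ne_zero (leadingCoeff_ne_zero.2 hQ0)))
        set Q' : k[X] := Q * C Q.leadingCoeff⁻¹ with hQ'
        have hm : Q'.Monic := monic_mul_leadingCoeff_inv hQ0
        have hass : Associated Q Q' := associated_mul_unit_right _ _ hl
        have hirr : Irreducible Q' := hass.irreducible hp.irreducible
        have hdv : Q' ∣ Q ^ (n + 1) := hass.symm.dvd.trans (dvd_pow_self _ (by omega))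
        have hcQ : IsCoprime Q' f := isCoprime_of_dvd hc hdv
        obtain ⟨w, hw⟩ := sq_pow k h2 f Q' hcQ
          (sq_prime k h2 f Q' hf hcQ hm hirr (hq Q' hm hirr hdv)) n
        exact ⟨w, ((hass.pow_pow (n := n + 1)).dvd).trans hw⟩
    | hcp hxy hx hy =>
      rename_i x y
      intro h0 hc hq
      have hx0 : x ≠ 0 := left_ne_zero_of_mul h0
      have hy0 : y ≠ 0 := right_ne_zero_of_mul h0
      obtain ⟨w₁, r₁, hw₁⟩ := hx hx0 (isCoprime_of_dvd hc (dvd_mul_right _ _))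
        (fun Q h1 h3 h4 => hq Q h1 h3 (h4.mul_right _))
      obtain ⟨w₂, r₂, hw₂⟩ := hy hy0 (isCoprime_of_dvd hc (dvd_mul_left _ _))
        (fun Q h1 h3 h4 => hq Q h1 h3 (h4.mul_left _))
      have hco : IsCoprime x y := IsRelPrime.isCoprime hxy
      have hco' := hco
      obtain ⟨a, b, hab⟩ := hco
      refine ⟨w₁ + (w₂ - w₁) * (a * x), hco'.mul_dvd
        ⟨r₁ + (w₂ - w₁) * a * (2 * w₁ + (w₂ - w₁) * (a * x)), ?_⟩
        ⟨r₂ + (w₁ - w₂) * b * (2 * w₂ + (w₁ - w₂) * (b * y)), ?_⟩⟩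
      · have : (w₁ + (w₂ - w₁) * (a * x)) ^ 2 - f = (w₁ ^ 2 - f) +
          x * ((w₂ - w₁) * a * (2 * w₁ + (w₂ - w₁) * (a * x))) := by ring
        rw [this, hw₁]
        ring
      · have e : a * x = 1 - b * y := by linear_combination hab
        rw [e]
        have : (w₁ + (w₂ - w₁) * (1 - b * y)) ^ 2 - f = (w₂ ^ 2 - f) +
          y * ((w₁ - w₂) * b * (2 * w₂ + (w₁ - w₂) * (b * y))) := by ring
        rw [this, hw₂]
        ring
  exact key u hu.ne_zero hc hq

end Pool.PRK.FF13
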