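import Pool.Agent.H13.PRK.FF
import Pool.Agent.H72.PRK.S2

/-!
# PRK: FFA and FFB
-/

set_option autoImplicit false

namespace Pool.PRK

/-- FFA: the prime of even degree in the residue class (Dirichlet's theorem). -/
theorem ffa : FFAStmt := fun k _ _ => FF13.ffa k

/-- FFB. -/
theorem ffb : FFBStmt := fun k _ _ => FF13.ffb k

end Pool.PRK
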