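import Pool.Agent.H13.PRK.S8
import Pool.Agent.H49.PRK.GDFK

/-!
# PRK, row GDIK: almost all polynomials of the family are good (one extra prime)
-/

set_option autoImplicit false

namespace Pool.PRK

open Polynomial Matrix Pool.HYP Pool.TOW Pool.AVS Pool.T1 IsDedekindDomain

theorem tq_card {R : Type} [CommRing R] [IsDomain R] {T : Finset (HeightOneSpectrum R)}
    {P : HeightOneSpectrum R} (hP : P ∈ T) {j : ℕ} (hT : T.card = 2 * j + 2) :
    (tq T P).card = 2 * j + 1 := by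
  classical
  have h1 : tq T P = Finset.univ.erase (⟨P, hP⟩ : {Q : HeightOneSpectrum R // Q ∈ T}) := by
    ext Q
    unfold tq
    rw [Finset.mem_filter, Finset.mem_erase]
    constructor
    · rintro ⟨-, h⟩
      exact ⟨fun e => h (congrArg Subtype.val e), Finset.mem_univ _⟩
    · rintro ⟨h, -⟩
      exact ⟨Finset.mem_univ _, fun e => h (Subtype.ext e)⟩
  rw [h1, Finset.card_erase_of_mem (Finset.mem_univ _), Finset.card_univ, Fintype.card_coe, hT]
  rfl

open GDFKaux in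
/-- GDIK. -/
theorem gdik : GDIKStmt := by
  classical
  intro R _ _ K _ _ _ O π g T' A C b hBLC hAvP hDen hA hFin hTw ε η hε hη
  set κ : ℝ := 2 * (C : ℝ) + 1 with hκdef
  have hκ : 0 < κ := by positivity
  obtain ⟨k1, hk1⟩ := hBLC (ε * η / (8 * κ)) η (by positivity) hη
  obtain ⟨k2, hk2⟩ := exists_nat_gt (2 * κ / ε)
  refine ⟨max k1 k2, ?_⟩
  intro D j hD hDT' hcard hj hNm P hP ϖ hϖ
  have hj1 : k1 ≤ j := (le_max_left _ _).trans hj
  have hj2 : k2 ≤ j := (le_max_right _ _).trans hj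
  have hT1 : (tq D.T P).card = 2 * j + 1 := tq_card hP hcard
  have hXcard : Fintype.card {P : HeightOneSpectrum R // P ∈ D.T} = D.T.card :=
    Fintype.card_coe D.T
  -- one bound for all the patterns
  have hN : ∀ m : {P : HeightOneSpectrum R // P ∈ D.T} → Ty, ∃ h₀ : ℕ,
      (∀ v, m v ≠ (1, 1)) → ∀ h : ℕ, h₀ ≤ h →
      2 ^ D.T.card * {f ∈ Fam π g D h | Pat K D ϖ (ex D.T m) f}.ncard ≤
        C * (Fam π g D h).ncard := by
    intro m
    by_cases hm : ∀ v, m v ≠ (1, 1)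
    · obtain ⟨d, E, hE⟩ := hTw D hD hDT' (ex D.T m)
      obtain ⟨h₀, hh₀⟩ := hAvP D hD hDT' hNm ϖ hϖ (ex D.T m) (ex_ne D.T m hm) d E hE
      exact ⟨h₀, fun _ => hh₀⟩
    · exact ⟨0, fun h => absurd h hm⟩
  choose NN hNN using hN
  obtain ⟨h₁, hh₁⟩ := hDen D hD (hDT' ▸ hA)
  refine ⟨max (Finset.univ.sup NN) h₁, ?_⟩
  intro h hh
  have hn' : ∀ m, NN m ≤ h := fun m =>
    (Finset.le_sup (Finset.mem_univ m)).trans ((le_max_left _ _).trans hh)
  have hsm := hh₁ h ((le_max_right _ _).trans hh)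
  have h0ne : ∀ v, (0 : {P : HeightOneSpectrum R // P ∈ D.T} → Ty) v ≠ (1, 1) := by
    intro v h
    have h1 := congrArg Prod.fst h
    simp at h1
  have hFf : (Fam π g D h).Finite := hFin D h hD
  have hsubF : FamS π g D h ⊆ Fam π g D h := fun f hf => hf.1
  have hfin : (FamS π g D h).Finite := hFf.subset hsubF
  set Φ : Set R[X] := FamS π g D h with hΦ
  -- the family is at most twice as large as its smooth part
  have htwo : ((Fam π g D h).ncard : ℝ) ≤ 2 * Φ.ncard := by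
    have e1 : Fam π g D h = Φ ∪ {f ∈ Fam π g D h | ¬ Smooth f} := by
      ext f
      constructor
      · intro hf
        by_cases hs : Smooth f
        · exact Or.inl ⟨hf, hs⟩
        · exact Or.inr ⟨hf, hs⟩
      · rintro (hf | hf)
        · exact hf.1
        · exact hf.1
    have e2 := Set.ncard_union_le Φ {f ∈ Fam π g D h | ¬ Smooth f}
    rw [← e1] at e2
    have e3 : (Fam π g D h).ncard ≤ 2 * Φ.ncard := by omega
    exact_mod_cast e3
  -- the number of elements with a given pattern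
  have hpat : ∀ m : {P : HeightOneSpectrum R // P ∈ D.T} → Ty, (∀ v, m v ≠ (1, 1)) →
      ({f | f ∈ Φ ∧ Pat K D ϖ (ex D.T m) f}.ncard : ℝ) ≤ κ / 2 ^ D.T.card * Φ.ncard := by
    intro m hm
    have e1 := hNN m hm h (hn' m)
    have e2 : {f | f ∈ Φ ∧ Pat K D ϖ (ex D.T m) f}.ncard ≤
        {f ∈ Fam π g D h | Pat K D ϖ (ex D.T m) f}.ncard :=
      Set.ncard_le_ncard (fun f hf => ⟨hsubF hf.1, hf.2⟩) (hFf.subset fun f hf => hf.1)
    have e3 : (2 : ℝ) ^ D.T.card * ({f | f ∈ Φ ∧ Pat K D ϖ (ex D.T m) f}.ncard : ℝ) ≤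
        κ * Φ.ncard := by
      have e4 : (2 : ℝ) ^ D.T.card * ({f ∈ Fam π g D h | Pat K D ϖ (ex D.T m) f}.ncard : ℝ) ≤
          C * (Fam π g D h).ncard := by exact_mod_cast e1
      have e5 : (2 : ℝ) ^ D.T.card * ({f | f ∈ Φ ∧ Pat K D ϖ (ex D.T m) f}.ncard : ℝ) ≤
          (2 : ℝ) ^ D.T.card * ({f ∈ Fam π g D h | Pat K D ϖ (ex D.T m) f}.ncard : ℝ) :=
        mul_le_mul_of_nonneg_left (by exact_mod_cast e2) (by positivity)
      have e6 : (C : ℝ) * (Fam π g D h).ncard ≤ C * (2 * Φ.ncard) :=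
        mul_le_mul_of_nonneg_left htwo (Nat.cast_nonneg _)
      have e7 : (0 : ℝ) ≤ (Φ.ncard : ℝ) := Nat.cast_nonneg _
      rw [hκdef]
      linarith
    rw [div_mul_eq_mul_div, le_div_iff₀ (by positivity), mul_comm]
    exact e3
  -- first bad set
  have hA0 : ({f | f ∈ Φ ∧ Pat K D ϖ (fun _ => 0) f}.ncard : ℝ) ≤ ε / 2 * Φ.ncard := by
    have h3 := hpat 0 h0ne
    rw [ex_zero] at h3
    refine h3.trans (mul_le_mul_of_nonneg_right ?_ (Nat.cast_nonneg _))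
    rw [div_le_div_iff₀ (by positivity) (by norm_num)]
    have h9 : (k2 : ℝ) ≤ 2 ^ D.T.card := by
      have h10 : k2 < 2 ^ D.T.card := by
        calc k2 ≤ D.T.card := by omega
          _ < 2 ^ D.T.card := Nat.lt_two_pow_self
      exact_mod_cast h10.le
    have h11 : 2 * κ / ε < 2 ^ D.T.card := hk2.trans_le h9
    rw [div_lt_iff₀ hε] at h11
    linarith
  -- the second bad set
  have hB0 : ({f | f ∈ Φ ∧ ¬ (({S : Finset {P : HeightOneSpectrum R // P ∈ D.T} |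
      S ∈ PRL.sl (tq D.T P) ∅ j ∪ PRL.sl (tq D.T P) ∅ (j + 1) ∧
      ∃ m : {P : HeightOneSpectrum R // P ∈ D.T} → Ty, m ≠ 0 ∧ m ∈ PRL.LS S ∧
        ¬ PRL.Bal η (tq D.T P) S m ∧ Pat K D ϖ (ex D.T m) f}.ncard : ℝ) ≤
      η * ((2 * j + 1).choose j : ℝ))}.ncard : ℝ) ≤ ε / 4 * Φ.ncard := by
    refine one Φ hfin (fun f m => Pat K D ϖ (ex D.T m) f)
      (fun f m => if Pat K D ϖ (ex D.T m) f then 1 else 0) (tq D.T P) ∅ j hT1 η ε κ hη hε hκ
      (fun f _ m => ?_) ?_ ?_ ?_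
    · show (0 : ℝ) ≤ if Pat K D ϖ (ex D.T m) f then 1 else 0
      split_ifs
      · exact zero_le_one
      · exact le_rfl
    · intro f _ m _ hQ
      have hQ' : Pat K D ϖ (ex D.T m) f := hQ
      show (1 : ℝ) ≤ if Pat K D ϖ (ex D.T m) f then 1 else 0
      rw [if_pos hQ']
    · intro m hm
      rw [hXcard, finsum_mem_eq_finite_toFinset_sum _ hfin, Finset.sum_boole]
      have e1 : {f | f ∈ Φ ∧ Pat K D ϖ (ex D.T m) f} =
          ((hfin.toFinset.filter fun f => Pat K D ϖ (ex D.T m) f : Finset R[X]) :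
            Set R[X]) := by
        ext f
        simp
      have e2 := hpat m hm
      rw [e1, Set.ncard_coe_finset] at e2
      exact e2
    · intro S
      exact hk1 _ (tq D.T P) S (by rw [hT1]; omega)
  have hsub : {f | f ∈ Φ ∧ ¬ GoodI K η D P ϖ j f} ⊆
      {f | f ∈ Φ ∧ Pat K D ϖ (fun _ => 0) f} ∪
      {f | f ∈ Φ ∧ ¬ (({S : Finset {P : HeightOneSpectrum R // P ∈ D.T} |
      S ∈ PRL.sl (tq D.T P) ∅ j ∪ PRL.sl (tq D.T P) ∅ (j + 1) ∧
      ∃ m : {P : HeightOneSpectrum R // P ∈ D.T} → Ty, m ≠ 0 ∧ m ∈ PRL.LS S ∧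
        ¬ PRL.Bal η (tq D.T P) S m ∧ Pat K D ϖ (ex D.T m) f}.ncard : ℝ) ≤
      η * ((2 * j + 1).choose j : ℝ))} := by
    rintro f ⟨hf, hG⟩
    by_contra hcon
    simp only [Set.mem_union, Set.mem_ofPred_eq, not_or, not_and, not_not] at hcon
    exact hG ⟨hcon.1 hf, hcon.2 hf⟩
  have hfs : ∀ p : R[X] → Prop, ({f | f ∈ Φ ∧ p f} : Set R[X]).Finite := fun p =>
    hfin.subset fun f hf => hf.1
  have h12 := Set.ncard_le_ncard hsub ((hfs _).union (hfs _))
  have h13 := h12.trans (Set.ncard_union_le _ _)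
  have h15 : (({f | f ∈ Φ ∧ ¬ GoodI K η D P ϖ j f}.ncard : ℕ) : ℝ) ≤ _ := Nat.cast_le.2 h13
  push_cast at h15
  have e7 : (0 : ℝ) ≤ ε * (Φ.ncard : ℝ) := mul_nonneg hε.le (Nat.cast_nonneg _)
  linarith

end Pool.PRK
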