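import Pool.Agent.H79.PRK.S6

/-!
# PRK: statements of the modules, part 8 (Selmer groups with exactly two elements)

`T` has `2 j + 2` elements, `P` is in `T`, and the twists are by the sets `insert P S`, where `S` is a
set of `j` or `j + 1` elements of `T` without `P`.
-/

set_option autoImplicit false

namespace Pool.PRK

open Polynomial Matrix Pool.HYP Pool.TOW Pool.AVS Pool.T1 IsDedekindDomain

section Defs8

variable {R : Type} [CommRing R] [IsDomain R] {K : Type} [Field K] [Algebra R K]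

/-- Over a completion of `K` at `P`, the class of `α` modulo `F` is not trivial. -/
def NTr (P : HeightOneSpectrum R) (F α : K[X]) : Prop :=
  ∃ (ϖ : R) (L : Type) (_ : Field L) (O' : ValuationSubring L) (ι : K →+* L),
    CompP P ϖ L O' ι ∧ ¬ ∃ s : L[X], F.map ι ∣ α.map ι - s ^ 2

/-- The 2-Selmer group has exactly two elements, and the nontrivial one is not trivial over the
completion of `K` at `P`. -/
def SelTwo (P : HeightOneSpectrum R) (F : K[X]) : Prop :=
  (SelG F).ncard = 2 ∧ ∀ (u : (AdjoinRoot F)ˣ) (α : K[X]),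
    (QuotientGroup.mk u : (AdjoinRoot F)ˣ ⧸ SqG F) ∈ SelG F →
    AdjoinRoot.mk F α = (u : AdjoinRoot F) → (¬ ∃ s, F ∣ α - s ^ 2) → NTr P F α

variable {O : ValuationSubring K}

open Classical in
/-- For at least `0.2097 - ε` of the sets `S` of `j` or `j + 1` elements of `T` without `P`, the
Selmer group of the twist by `dS S` is trivial, and that of the twist by `dS (insert P S)` has
exactly two elements, the nontrivial one being nontrivial at `P`. -/
def LawI (K : Type) [Field K] [Algebra R K] {O : ValuationSubring K} (ε : ℝ) (D : Dat R O)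
    (P : HeightOneSpectrum R) (dS : Finset (HeightOneSpectrum R) → R) (f : R[X]) : Prop :=
  (0.2097 - ε) * (Sl (D.T.erase P)).card ≤
    {S | S ∈ Sl (D.T.erase P) ∧ (SelG (fk K (f.scaleRoots (dS S)))).ncard = 1 ∧
      SelTwo P (fk K (f.scaleRoots (dS (insert P S))))}.ncard

open Classical in
/-- The twists of the elements of `A` by the `dS (insert P S)`, `S` a set of `j` or `j + 1` elements
of `T` without `P`, as polynomials over `K`. -/
def ZI (K : Type) [Field K] [Algebra R K] {O : ValuationSubring K} (D : Dat R O)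
    (P : HeightOneSpectrum R) (dS : Finset (HeightOneSpectrum R) → R) (A : Set R[X]) : Set K[X] :=
  {q | ∃ f ∈ A, ∃ S ∈ Sl (D.T.erase P), q = fk K (f.scaleRoots (dS (insert P S)))}

/-- In the subset `Z` of positive density `c` in `H`, the Selmer group has exactly two elements, the
nontrivial one being nontrivial at `P`, for a proportion of at least `0.2097 - ε`. -/
def PosI (P : HeightOneSpectrum R) (ε c : ℝ) (Z H : Set K[X]) : Prop :=
  Z ⊆ H ∧ H.Finite ∧ 0 < H.ncard ∧ c * H.ncard ≤ Z.ncard ∧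
    (0.2097 - ε) * Z.ncard ≤ {q | q ∈ Z ∧ SelTwo P q}.ncard

variable (R) in
/-- The main statement of this part in the abstract setting, for a set `H h` of polynomials. -/
def LawR1 (O : ValuationSubring K) (π : K) (g : ℕ) (H : ℕ → Set K[X]) : Prop :=
  ∃ A : Finset (HeightOneSpectrum R), ∀ T' : Finset (HeightOneSpectrum R), A ⊆ T' →
    ∀ ε : ℝ, 0 < ε → ∃ k₀ : ℕ, ∀ k : ℕ, Even k → k₀ ≤ k → ∃ b : ℕ,
    (∃ D : Dat R O, D.Ok g ∧ D.T' = T' ∧ D.T.card = k ∧ (∀ P ∈ D.T, b < Nm P) ∧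
      (((2 * g + 1 : ℕ) : K) ≠ 0 → Tr0 D g)) ∧
    ∀ D : Dat R O, D.Ok g → D.T' = T' → D.T.card = k → (∀ P ∈ D.T, b < Nm P) →
    (∃ dS : Finset (HeightOneSpectrum R) → R, Tws D dS) ∧
    ∀ P ∈ D.T, ∀ dS : Finset (HeightOneSpectrum R) → R, Tws D dS →
    ∀ E : ℕ, (∀ S ⊆ D.T, dS S ∈ Lm R O π (E : ℤ)) →
    ∃ c : ℝ, 0 < c ∧ ∃ h₀ : ℕ, ∀ h : ℕ, h₀ ≤ h →
      PosI P ε c (ZI K D P dS (FamS π g D h)) (H (h + E)) ∧
      ({f | f ∈ FamS π g D h ∧ ¬ LawI K ε D P dS f}.ncard : ℝ) ≤ ε * (FamS π g D h).ncard ∧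
      (((2 * g + 1 : ℕ) : K) ≠ 0 → Tr0 D g →
        PosI P ε c (ZI K D P dS {f | f ∈ FamS π g D h ∧ f.coeff (2 * g) = 0})
          {f | f ∈ H (h + E) ∧ f.coeff (2 * g) = 0})

end Defs8

/-- The main theorem of this part. -/
def MainRk1 : Prop :=
  ∀ (F : Type) [Field F] [Finite F], (2 : F) ≠ 0 → ∀ (K : Type) [Field K]
    [Algebra (RatFunc F) K] [FiniteDimensional (RatFunc F) K] [Algebra.IsSeparable (RatFunc F) K]
    (O : ValuationSubring K), OnePole F O → ∀ π : K, Unif O π → ∀ g : ℕ, 1 ≤ g →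
    LawR1 (RR F K) O π g (HypK F O g)

section Good

variable {R : Type} [CommRing R] [IsDomain R]

open Classical in
/-- The elements of `T` different from `P`, as elements of the type attached to `T`. -/
noncomputable def tq (T : Finset (HeightOneSpectrum R)) (P : HeightOneSpectrum R) :
    Finset {Q : HeightOneSpectrum R // Q ∈ T} :=
  Finset.univ.filter fun Q => (Q : HeightOneSpectrum R) ≠ P

open Classical in
/-- The conditions on one polynomial under which the law holds. -/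
def GoodI (K : Type) [Field K] [Algebra R K] {O : ValuationSubring K} (η : ℝ) (D : Dat R O)
    (P : HeightOneSpectrum R) (ϖ : HeightOneSpectrum R → R) (j : ℕ) (f : R[X]) : Prop :=
  ¬ Pat K D ϖ (fun _ => 0) f ∧
    ({S : Finset {Q : HeightOneSpectrum R // Q ∈ D.T} |
      S ∈ PRL.sl (tq D.T P) ∅ j ∪ PRL.sl (tq D.T P) ∅ (j + 1) ∧
      ∃ m : {Q : HeightOneSpectrum R // Q ∈ D.T} → Ty, m ≠ 0 ∧ m ∈ PRL.LS S ∧
        ¬ PRL.Bal η (tq D.T P) S m ∧ Pat K D ϖ (ex D.T m) f}.ncard : ℝ) ≤ η * ((2 * j + 1).choose j : ℝ)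

end Good

/-- GDIK: almost all polynomials of the family are good (as GDFK). -/
def GDIKStmt : Prop :=
  ∀ (R : Type) [CommRing R] [IsDedekindDomain R] (K : Type) [Field K] [Algebra R K]
    [IsFractionRing R K] (O : ValuationSubring K) (π : K) (g : ℕ)
    (T' A : Finset (HeightOneSpectrum R)) (C b : ℕ), PRL.BLCStmt → AvP O π g T' C b →
    DenP O π g A → A ⊆ T' → (∀ (D : Dat R O) (h : ℕ), D.Ok g → (Fam π g D h).Finite) →
    (∀ D : Dat R O, D.Ok g → D.T' = T' → ∀ y : HeightOneSpectrum R → Ty,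
      ∃ (d : R) (E : ℕ), TwE O π D y d E) →
    ∀ ε η : ℝ, 0 < ε → 0 < η → ∃ k₀ : ℕ, ∀ (D : Dat R O) (j : ℕ), D.Ok g → D.T' = T' →
    D.T.card = 2 * j + 2 → k₀ ≤ j →
    (∀ P ∈ D.T, b < Nm P ∧ 2 * (2 * g + 1) * D.T.card ≤ Nm P) → ∀ P ∈ D.T,
    ∀ ϖ : HeightOneSpectrum R → R, Uni D.T ϖ → ∃ h₀ : ℕ, ∀ h : ℕ, h₀ ≤ h →
      ({f | f ∈ FamS π g D h ∧ ¬ GoodI K η D P ϖ j f}.ncard : ℝ) ≤ ε * (FamS π g D h).ncard

/-- STWK: if the Selmer group of the twist by `S` is trivial, the nontrivial classes in the Selmer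
group of the twist by `insert P S` are nontrivial at `P`.  (Such a class has type `x` with `x.2 = 0` at
`P`, by SELK.  If `x.1 = 0`, the class is in the Selmer group of the twist by `S`, by SELK.  So
`x.1 = 1` and the class is not the class of a unit at `P`: TAK, CMPK, INOK.) -/
def STWKStmt : Prop :=
  TAKStmt → SELKStmt → CMPKStmt → INOKStmt →
  ∀ (R : Type) [CommRing R] [IsDedekindDomain R] (K : Type) [Field K] [Algebra R K]
    [IsFractionRing R K] (O : ValuationSubring K) (π : K), GR R O π → Only R O →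
    ∀ (g : ℕ) (D : Dat R O) (h : ℕ), 1 ≤ g → D.Ok g → ∀ f ∈ FamS π g D h,
    ∀ ϖ : HeightOneSpectrum R → R, Uni D.T ϖ → ∀ S ⊆ D.T, ∀ P ∈ D.T, P ∉ S →
    ∀ S' : Finset (HeightOneSpectrum R), (∀ Q, Q ∈ S' ↔ Q = P ∨ Q ∈ S) →
    ∀ d d' : R, Twi D.T D.T' S d → Twi D.T D.T' S' d' →
    (SelG (fk K (f.scaleRoots d))).Finite → (SelG (fk K (f.scaleRoots d))).ncard = 1 →
    ∀ (u : (AdjoinRoot (fk K (f.scaleRoots d')))ˣ) (α : K[X]),
      (QuotientGroup.mk u : (AdjoinRoot (fk K (f.scaleRoots d')))ˣ ⧸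
        SqG (fk K (f.scaleRoots d'))) ∈ SelG (fk K (f.scaleRoots d')) →
      AdjoinRoot.mk (fk K (f.scaleRoots d')) α = (u : AdjoinRoot (fk K (f.scaleRoots d'))) →
      (¬ ∃ s, fk K (f.scaleRoots d') ∣ α - s ^ 2) → NTr P (fk K (f.scaleRoots d')) α

end Pool.PRK
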